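import Pool.Agent.helper79.SL.Rk

set_option autoImplicit false

/-!
# Final forms
-/

namespace Pool.Agent.helper79.SL

open NumberField Height Finset Module IntermediateField Polynomial

/-- the degree does not grow when the ground field grows -/
lemma finrank_adjoin_mono {F F' : IntermediateField ℚ ℂ} (hF : F ≤ F') {S : Set ℂ}
    (hS : S.Finite) (halg : ∀ x ∈ S, IsAlgebraic ℚ x) :
    finrank F' (adjoin F' S) ≤ finrank F (adjoin F S) := by
  letI : Algebra F F' := (IntermediateField.inclusion hF).toAlgebra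
  haveI : IsScalarTower F F' ℂ := IsScalarTower.of_algebraMap_eq fun x => rfl
  haveI : FiniteDimensional F (adjoin F S) := by
    haveI := hS.to_subtype
    exact finiteDimensional_adjoin fun x hx => (halg x hx).isIntegral.tower_top
  have h1 := adjoin_rank_le_of_isAlgebraic_right (F := F) (E := F') (adjoin F S)
  have h2 : adjoin F' ((adjoin F S : IntermediateField F ℂ) : Set ℂ) = adjoin F' S := by
    apply le_antisymm
    · rw [adjoin_le_iff]
      have h3 : adjoin F S ≤ (adjoin F' S).restrictScalars F := by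
        rw [adjoin_le_iff]
        exact subset_adjoin F' S
      exact h3
    · exact adjoin.mono F' _ _ (subset_adjoin F S)
  rw [h2] at h1
  have h3 : Module.rank F (adjoin F S) < Cardinal.aleph0 := rank_lt_aleph0 F _
  exact Cardinal.toNat_le_toNat h1 h3

lemma Qab_le_Kinf (K : IntermediateField ℚ ℂ) : Qab ≤ Kinf K :=
  adjoin.mono ℚ _ _ Set.subset_union_right

lemma isAlgebraic_of_mem_Qab {x : ℂ} (hx : x ∈ Qab) : IsAlgebraic ℚ x := by
  obtain ⟨m, ζ, hm, hζ, h1⟩ := mem_Qab hx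
  haveI : NeZero m := ⟨hm.ne'⟩
  haveI : IsCyclotomicExtension {m} ℚ ℚ⟮ζ⟯ := cycC hζ
  haveI : NumberField ℚ⟮ζ⟯ := IsCyclotomicExtension.numberField {m} ℚ ℚ⟮ζ⟯
  have : IsAlgebraic ℚ (⟨x, h1⟩ : ℚ⟮ζ⟯) := Algebra.IsAlgebraic.isAlgebraic _
  exact this.algebraMap (A := ℂ)

/-- the relative form of the theorem on tuples of bounded rank -/
theorem bounded_rank_rel (n r : ℕ) (hn : 0 < n) : ∃ c : ℝ, 0 < c ∧
    ∀ α : Fin n → ℂ, (∀ i, IsAlgebraic ℚ (α i)) → (∀ i, α i ≠ 0) →
    (∀ w : Fin n → ℤ, ∏ i, α i ^ w i = 1 → w = 0) →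
    (∀ β : Fin (r + 1) → ℂ, (∀ j, ∃ i, aeval (β j) (minpoly ℚ (α i)) = 0) →
      ∃ w : Fin (r + 1) → ℤ, w ≠ 0 ∧ ∏ j, β j ^ w j = 1) →
    c / finrank Qab (adjoin Qab (Set.range α)) ≤ ∏ i, ht (α i) := by
  obtain ⟨c, hc, h⟩ := bounded_degree_rel n (3 ^ (r * r)) hn
  refine ⟨c, hc, fun α halg h0 hind hdep => ?_⟩
  obtain ⟨N, _, _, _, ι, a, ha⟩ := exists_galois α halg
  have ha0 : ∀ i, a i ≠ 0 := by
    intro i hi
    apply h0 i
    rw [← ha i, hi, map_zero]
  have hmin : ∀ i, minpoly ℚ (a i) = minpoly ℚ (α i) := by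
    intro i
    rw [← ha i]
    exact (minpoly.algHom_eq (ι.toRatAlgHom) ι.injective (a i)).symm
  obtain ⟨K, hK1, hK2⟩ := rk_aux r a ha0 (by
    intro β hβ0 hβ
    obtain ⟨w, hw, hprod⟩ := hdep (fun j => ι (β j)) (by
      intro j
      obtain ⟨i, hi⟩ := hβ j
      refine ⟨i, ?_⟩
      have h1 := Polynomial.aeval_algHom_apply (ι.toRatAlgHom) (β j) (minpoly ℚ (a i))
      rw [hi, map_zero, hmin i] at h1
      exact h1)
    refine ⟨w, hw, ?_⟩
    apply ι.injective
    rw [map_prod, map_one, ← hprod]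
    exact Finset.prod_congr rfl fun j _ => map_zpow₀ ι _ _)
  let K' : IntermediateField ℚ ℂ := K.map ι.toRatAlgHom
  let e : K ≃ₐ[ℚ] K' := K.equivMap ι.toRatAlgHom
  haveI : FiniteDimensional ℚ K' := Module.Finite.equiv e.toLinearEquiv
  have hfr : finrank ℚ K' ≤ 3 ^ (r * r) := by
    rw [← e.toLinearEquiv.finrank_eq]
    exact hK1
  have hpos : (0 : ℝ) < finrank (Kinf K') (adjoin (Kinf K') (Set.range α)) := by
    haveI : FiniteDimensional (Kinf K') (adjoin (Kinf K') (Set.range α)) :=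
      finiteDimensional_adjoin (by rintro _ ⟨i, rfl⟩; exact (halg i).isIntegral.tower_top)
    exact_mod_cast finrank_pos
  refine le_trans ?_ (h K' inferInstance hfr α h0 (fun i => ?_) hind)
  · apply div_le_div_of_nonneg_left hc.le hpos
    exact_mod_cast finrank_adjoin_mono (Qab_le_Kinf K') (Set.finite_range α)
      (by rintro _ ⟨i, rfl⟩; exact halg i)
  · obtain ⟨k, hk, hmem⟩ := hK2 i
    refine ⟨k, hk, ?_⟩
    rw [← ha i, ← map_pow]
    exact ⟨a i ^ k, hmem, rfl⟩

end Pool.Agent.helper79.SL
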