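import Pool.Agent.helper79.SL.Base

set_option autoImplicit false

/-!
# The absolute logarithmic height of algebraic numbers
-/

namespace Pool.Agent.helper79.SL

open NumberField Height Finset Module IntermediateField

/-- the absolute logarithmic Weil height (Mathlib) -/
noncomputable abbrev ht (x : ℂ) : ℝ := NumberField.absLogHeight₁ x

lemma ht_nonneg (x : ℂ) : 0 ≤ ht x := by
  unfold ht NumberField.absLogHeight₁ NumberField.absMulHeight₁
  split_ifs with hx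
  · haveI : FiniteDimensional ℚ ℚ⟮x⟯ := adjoin.finiteDimensional hx
    haveI : NumberField ℚ⟮x⟯ := {}
    exact Real.log_nonneg (Real.one_le_rpow (one_le_mulHeight₁ _) (by positivity))
  · simp

/-- the absolute height computed in a number field -/
theorem ht_eq {K : Type*} [Field K] [NumberField K] (φ : K →+* ℂ) (x : K) :
    ht (φ x) = logHeight₁ x / finrank ℚ K := by
  have hint : IsIntegral ℚ (φ x) := by
    have h1 : IsIntegral ℚ x := Algebra.IsIntegral.isIntegral x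
    exact h1.map (φ.toRatAlgHom)
  haveI : FiniteDimensional ℚ ℚ⟮φ x⟯ := adjoin.finiteDimensional hint
  haveI : NumberField ℚ⟮φ x⟯ := {}
  have h0 : ht (φ x) = logHeight₁ (AdjoinSimple.gen ℚ (φ x)) / finrank ℚ ℚ⟮φ x⟯ := by
    unfold ht NumberField.absLogHeight₁ NumberField.absMulHeight₁
    rw [dif_pos hint, Real.log_rpow (mulHeight₁_pos _), inv_mul_eq_div,
      logHeight₁_eq_log_mulHeight₁]
  set φ' : K →ₐ[ℚ] ℂ := φ.toRatAlgHom with hφ'
  have hle : ℚ⟮φ x⟯ ≤ φ'.fieldRange := by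
    rw [adjoin_simple_le_iff]
    exact ⟨x, rfl⟩
  let e : K ≃ₐ[ℚ] φ'.fieldRange := AlgEquiv.ofInjectiveField φ'
  let g : ℚ⟮φ x⟯ →ₐ[ℚ] K := e.symm.toAlgHom.comp (IntermediateField.inclusion hle)
  have hg : g (AdjoinSimple.gen ℚ (φ x)) = x := by
    apply φ'.injective
    have h1 : ((e (g (AdjoinSimple.gen ℚ (φ x))) : φ'.fieldRange) : ℂ) = φ x := by
      show ((e (e.symm (IntermediateField.inclusion hle (AdjoinSimple.gen ℚ (φ x)))) :
        φ'.fieldRange) : ℂ) = φ x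
      rw [AlgEquiv.apply_symm_apply]
      rfl
    exact h1
  letI : Algebra ℚ⟮φ x⟯ K := g.toRingHom.toAlgebra
  have h1 := logHeight₁_algebraMap (K := ℚ⟮φ x⟯) (L := K) (AdjoinSimple.gen ℚ (φ x))
  have h2 : algebraMap ℚ⟮φ x⟯ K (AdjoinSimple.gen ℚ (φ x)) = x := hg
  rw [h2] at h1
  have h3 : finrank ℚ ℚ⟮φ x⟯ * finrank ℚ⟮φ x⟯ K = finrank ℚ K := finrank_mul_finrank ℚ ℚ⟮φ x⟯ K
  have h4 : 0 < finrank ℚ ℚ⟮φ x⟯ := finrank_pos
  have h5 : 0 < finrank ℚ K := finrank_pos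
  have h6 : 0 < finrank ℚ⟮φ x⟯ K := Nat.pos_of_mul_pos_left (h3 ▸ h5)
  rw [h0, h1, ← h3, Nat.cast_mul]
  field_simp

/-- the number field generated by finitely many algebraic numbers -/
theorem exists_field {ι : Type*} [Finite ι] (x : ι → ℂ) (hx : ∀ i, IsAlgebraic ℚ (x i)) :
    ∃ K : IntermediateField ℚ ℂ, FiniteDimensional ℚ K ∧ ∀ i, x i ∈ K := by
  refine ⟨adjoin ℚ (Set.range x), ?_, fun i => subset_adjoin _ _ ⟨i, rfl⟩⟩
  exact finiteDimensional_adjoin (by rintro _ ⟨i, rfl⟩; exact (hx i).isIntegral)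

theorem ht_eq' (K : IntermediateField ℚ ℂ) [FiniteDimensional ℚ K] (x : K) :
    haveI : NumberField K := {}
    ht (x : ℂ) = logHeight₁ x / finrank ℚ K := by
  haveI : NumberField K := {}
  exact ht_eq (algebraMap K ℂ) x

theorem ht_mul_le {x y : ℂ} (hx : IsAlgebraic ℚ x) (hy : IsAlgebraic ℚ y) :
    ht (x * y) ≤ ht x + ht y := by
  obtain ⟨K, hK, h⟩ := exists_field ![x, y] (by intro i; fin_cases i <;> assumption)
  haveI : NumberField K := {}
  have e1 := ht_eq' K (⟨x, h 0⟩ * ⟨y, h 1⟩)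
  have e2 := ht_eq' K ⟨x, h 0⟩
  have e3 := ht_eq' K ⟨y, h 1⟩
  have h1 : ((⟨x, h 0⟩ * ⟨y, h 1⟩ : K) : ℂ) = x * y := rfl
  rw [h1] at e1
  rw [e1, e2, e3, ← add_div]
  gcongr
  exact logHeight₁_mul_le _ _

theorem ht_zpow {x : ℂ} (hx : IsAlgebraic ℚ x) (k : ℤ) : ht (x ^ k) = |(k : ℝ)| * ht x := by
  obtain ⟨K, hK, h⟩ := exists_field ![x] (by intro i; fin_cases i; assumption)
  haveI : NumberField K := {}
  have e1 := ht_eq' K (⟨x, h 0⟩ ^ k)
  have e2 := ht_eq' K ⟨x, h 0⟩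
  have h1 : ((⟨x, h 0⟩ ^ k : K) : ℂ) = x ^ k := by push_cast; rfl
  rw [h1, logHeight₁_zpow] at e1
  rw [e1, e2]
  rw [Nat.cast_natAbs, Int.cast_abs]
  ring

theorem ht_pow {x : ℂ} (hx : IsAlgebraic ℚ x) (k : ℕ) : ht (x ^ k) = k * ht x := by
  have := ht_zpow hx k
  rwa [zpow_natCast, Int.cast_natCast, Nat.abs_cast] at this

theorem ht_inv {x : ℂ} (hx : IsAlgebraic ℚ x) : ht x⁻¹ = ht x := by
  have := ht_zpow hx (-1)
  rwa [zpow_neg_one, Int.cast_neg, Int.cast_one, abs_neg, abs_one, one_mul] at this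

theorem ht_one : ht 1 = 0 := by
  have := ht_zpow (isAlgebraic_one (R := ℚ) (A := ℂ)) 0
  rwa [zpow_zero, Int.cast_zero, abs_zero, zero_mul] at this

theorem isAlgebraic_prod {ι : Type*} (s : Finset ι) {x : ι → ℂ}
    (hx : ∀ i ∈ s, IsAlgebraic ℚ (x i)) : IsAlgebraic ℚ (∏ i ∈ s, x i) := by
  have h : IsIntegral ℚ (∏ i ∈ s, x i) := IsIntegral.prod _ fun i hi => (hx i hi).isIntegral
  exact h.isAlgebraic

theorem ht_prod_le {ι : Type*} (s : Finset ι) {x : ι → ℂ} (hx : ∀ i ∈ s, IsAlgebraic ℚ (x i)) :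
    ht (∏ i ∈ s, x i) ≤ ∑ i ∈ s, ht (x i) := by
  classical
  induction s using Finset.induction_on with
  | empty => simp [ht_one]
  | insert a s ha ih =>
    rw [Finset.prod_insert ha, Finset.sum_insert ha]
    have h1 : IsAlgebraic ℚ (∏ i ∈ s, x i) :=
      isAlgebraic_prod s (fun i hi => hx i (Finset.mem_insert_of_mem hi))
    have h2 := ht_mul_le (hx a (Finset.mem_insert_self a s)) h1
    have h3 := ih fun i hi => hx i (Finset.mem_insert_of_mem hi)
    linarith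

/-- multiplication by roots of unity does not change the height -/
theorem ht_mul_torsion {x ζ : ℂ} (hx : IsAlgebraic ℚ x) {k : ℕ} (hk : 0 < k) (hζ : ζ ^ k = 1) :
    ht (ζ * x) = ht x := by
  have hζa : IsAlgebraic ℚ ζ := by
    have : IsIntegral ℚ ζ := by
      refine ⟨Polynomial.X ^ k - 1, Polynomial.monic_X_pow_sub_C 1 hk.ne', ?_⟩
      simp [hζ]
    exact this.isAlgebraic
  have h1 : (ζ * x) ^ k = x ^ k := by rw [mul_pow, hζ, one_mul]
  have h2 := ht_pow (hζa.mul hx) k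
  rw [h1, ht_pow hx k] at h2
  have hk' : (k : ℝ) ≠ 0 := by exact_mod_cast hk.ne'
  exact (mul_left_cancel₀ hk' h2).symm

/-- the height of an embedding -/
theorem ht_conj {K : Type*} [Field K] [NumberField K] (φ ψ : K →+* ℂ) (x : K) :
    ht (φ x) = ht (ψ x) := by
  rw [ht_eq φ x, ht_eq ψ x]

end Pool.Agent.helper79.SL
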