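import Pool.Agent.helper79.SL.Kummer

set_option autoImplicit false

/-!
# The product of the heights of independent radicals over a field containing all roots of unity
-/

namespace Pool.Agent.helper79.SL

open NumberField Height Finset Module IntermediateField

variable {F : IntermediateField ℚ ℂ}

lemma isAlgebraic_zpow {x : ℂ} (hx : IsAlgebraic ℚ x) (k : ℤ) : IsAlgebraic ℚ (x ^ k) := by
  rcases k with k | k
  · simpa using hx.pow k
  · simpa using (hx.pow (k + 1)).inv

/-- **Main theorem.** `F` contains all roots of unity, every `α i` has a positive power in `F`,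
and `b` is a lower bound of the height on the nontrivial monomials in the `α i` which are in `F`. -/
theorem prod_ht_ge (hμ : ∀ (k : ℕ) (ζ : ℂ), 0 < k → ζ ^ k = 1 → ζ ∈ F) {n : ℕ} (hn : 0 < n)
    (α : Fin n → ℂ) (h0 : ∀ i, α i ≠ 0) (halg : ∀ i, IsAlgebraic ℚ (α i))
    (hrad : ∀ i, ∃ k : ℕ, 0 < k ∧ α i ^ k ∈ F) {b : ℝ} (hb : 0 < b)
    (hG : ∀ m : Fin n → ℤ, m ≠ 0 → ∏ i, α i ^ m i ∈ F → b ≤ ht (∏ i, α i ^ m i)) :
    (b / n) ^ n / finrank F (adjoin F (Set.range α)) ≤ ∏ i, ht (α i) := by
  classical
  haveI : FiniteDimensional F (adjoin F (Set.range α)) := by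
    apply finiteDimensional_adjoin
    rintro _ ⟨i, rfl⟩
    exact (halg i).isIntegral.tower_top
  have hd : (0 : ℝ) < finrank F (adjoin F (Set.range α)) := by
    exact_mod_cast (finrank_pos : 0 < finrank F (adjoin F (Set.range α)))
  have hn' : (0 : ℝ) < n := by exact_mod_cast hn
  have hpos : ∀ i, 0 < ht (α i) := by
    intro i
    obtain ⟨k, hk, h⟩ := hrad i
    have h1 : ∏ j, α j ^ (Pi.single i (k : ℤ) : Fin n → ℤ) j = α i ^ k := by
      rw [Finset.prod_eq_single i]
      · simp
      · intro j _ hj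
        simp [hj]
      · simp
    have h2 := hG (Pi.single i (k : ℤ)) (by
      intro hh
      have := congrFun hh i
      simp at this
      omega) (by rw [h1]; exact h)
    rw [h1, ht_pow (halg i)] at h2
    have h3 : 0 < (k : ℝ) * ht (α i) := hb.trans_le h2
    exact (pos_iff_pos_of_mul_pos h3).1 (by exact_mod_cast hk)
  rw [div_le_iff₀ hd]
  by_contra hcon
  push Not at hcon
  set x : Fin n → ℝ := fun i => b / (n * ht (α i)) with hx
  have hxpos : ∀ i, 0 < x i := fun i => by
    have := hpos i
    rw [hx]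
    positivity
  set m : Fin n → ℕ := fun i => ⌈x i⌉₊ - 1 with hm
  have hm1 : ∀ i, x i ≤ ((m i + 1 : ℕ) : ℝ) := by
    intro i
    have h1 : 0 < ⌈x i⌉₊ := Nat.ceil_pos.2 (hxpos i)
    have h2 : m i + 1 = ⌈x i⌉₊ := by
      simp only [hm]
      omega
    rw [h2]
    exact Nat.le_ceil _
  have hm2 : ∀ i, (m i : ℝ) < x i := by
    intro i
    have h1 : 0 < ⌈x i⌉₊ := Nat.ceil_pos.2 (hxpos i)
    have h2 : m i < ⌈x i⌉₊ := by
      simp only [hm]
      omega
    exact Nat.lt_ceil.1 h2
  set B : Finset (Fin n → ℕ) := Fintype.piFinset fun i => Finset.range (m i + 1) with hB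
  have hcard : finrank F (adjoin F (Set.range α)) < #B := by
    have h1 : (#B : ℝ) = ∏ i, ((m i + 1 : ℕ) : ℝ) := by
      rw [hB, Fintype.card_piFinset]
      push_cast
      simp
    have h2 : ∏ i, x i ≤ (#B : ℝ) := by
      rw [h1]
      exact Finset.prod_le_prod (fun i _ => (hxpos i).le) fun i _ => hm1 i
    have h3 : (∏ i, x i) * ∏ i, ht (α i) = (b / n) ^ n := by
      rw [← Finset.prod_mul_distrib]
      have : ∀ i, x i * ht (α i) = b / n := by
        intro i
        have := (hpos i).ne'
        simp only [hx]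
        field_simp
      rw [Finset.prod_congr rfl fun i _ => this i, Finset.prod_const, Finset.card_univ,
        Fintype.card_fin]
    have h4 : 0 < ∏ i, ht (α i) := Finset.prod_pos fun i _ => hpos i
    have h5 : (finrank F (adjoin F (Set.range α)) : ℝ) < ∏ i, x i := by
      rw [← h3, mul_comm] at hcon
      exact lt_of_mul_lt_mul_right hcon h4.le
    exact_mod_cast h5.trans_le h2
  -- two monomials in the same class
  obtain ⟨u, v, huv, hF⟩ : ∃ u v : B, u ≠ v ∧
      (∏ i, α i ^ (u : Fin n → ℕ) i) / (∏ i, α i ^ (v : Fin n → ℕ) i) ∈ F := by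
    by_contra hno
    push Not at hno
    have hli := kummer_indep hμ (fun u : B => ∏ i, α i ^ (u : Fin n → ℕ) i)
      (fun u => Finset.prod_ne_zero_iff.2 fun i _ => pow_ne_zero _ (h0 i))
      (fun u => by
        choose k hk hkF using hrad
        refine ⟨∏ i, k i, Finset.prod_pos fun i _ => hk i, ?_⟩
        rw [← Finset.prod_pow]
        refine prod_mem fun i _ => ?_
        rw [← Finset.mul_prod_erase Finset.univ k (Finset.mem_univ i), ← pow_mul, mul_comm,
          mul_assoc, pow_mul]
        exact pow_mem (hkF i) _)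
      (fun u v huv => hno u v huv)
    let a : B → adjoin F (Set.range α) := fun u =>
      ⟨∏ i, α i ^ (u : Fin n → ℕ) i, prod_mem fun i _ =>
        pow_mem (subset_adjoin F _ (Set.mem_range_self i)) _⟩
    have hli' : LinearIndependent F a :=
      LinearIndependent.of_comp (adjoin F (Set.range α)).val.toLinearMap hli
    have := hli'.fintype_card_le_finrank
    rw [Fintype.card_coe] at this
    omega
  set w : Fin n → ℤ := fun i => ((u : Fin n → ℕ) i : ℤ) - ((v : Fin n → ℕ) i : ℤ) with hw
  have hw0 : w ≠ 0 := by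
    intro h
    apply huv
    apply Subtype.ext
    funext i
    have := congrFun h i
    simp only [hw, Pi.zero_apply] at this
    omega
  have hprod : ∏ i, α i ^ w i =
      (∏ i, α i ^ (u : Fin n → ℕ) i) / (∏ i, α i ^ (v : Fin n → ℕ) i) := by
    rw [← Finset.prod_div_distrib]
    refine Finset.prod_congr rfl fun i _ => ?_
    simp only [hw]
    rw [zpow_sub₀ (h0 i), zpow_natCast, zpow_natCast]
  have h1 := hG w hw0 (hprod ▸ hF)
  have h2 : ht (∏ i, α i ^ w i) ≤ ∑ i, ht (α i ^ w i) :=
    ht_prod_le _ fun i _ => isAlgebraic_zpow (halg i) _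
  have h3 : ∀ i ∈ (Finset.univ : Finset (Fin n)), ht (α i ^ w i) < b / n := by
    intro i _
    rw [ht_zpow (halg i)]
    have hu := Fintype.mem_piFinset.1 u.2 i
    have hv := Fintype.mem_piFinset.1 v.2 i
    rw [Finset.mem_range] at hu hv
    have h4 : |w i| ≤ (m i : ℤ) := by
      simp only [hw]
      rw [abs_le]
      constructor <;> omega
    have h5 : |(w i : ℝ)| ≤ m i := by exact_mod_cast h4
    calc |(w i : ℝ)| * ht (α i) ≤ m i * ht (α i) := mul_le_mul_of_nonneg_right h5 (hpos i).le
      _ < x i * ht (α i) := mul_lt_mul_of_pos_right (hm2 i) (hpos i)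
      _ = b / n := by
        have := (hpos i).ne'
        simp only [hx]
        field_simp
  have h4 : ∑ i, ht (α i ^ w i) < ∑ _i : Fin n, b / n :=
    Finset.sum_lt_sum_of_nonempty ⟨⟨0, hn⟩, Finset.mem_univ _⟩ h3
  rw [Finset.sum_const, Finset.card_univ, Fintype.card_fin, nsmul_eq_mul,
    mul_div_cancel₀ _ hn'.ne'] at h4
  linarith

end Pool.Agent.helper79.SL
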