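import Pool.Agent.helper79.SL.Cyc
import Pool.Agent.helper79.SL.Main

set_option autoImplicit false

/-!
# Radicals over the maximal abelian extension of the rationals
-/

namespace Pool.Agent.helper79.SL

open NumberField Height Finset Module IntermediateField Polynomial

lemma log_pos' : 0 < Real.log (5 / 2) := Real.log_pos (by norm_num)

lemma cycC {n : ℕ} [NeZero n] {ζ : ℂ} (hζ : IsPrimitiveRoot ζ n) :
    IsCyclotomicExtension {n} ℚ ℚ⟮ζ⟯ := by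
  change IsCyclotomicExtension {n} ℚ (ℚ⟮ζ⟯).toSubalgebra
  have h1 : IsAlgebraic ℚ ζ := by
    have h2 : IsIntegral ℚ ζ := (hζ.isIntegral (NeZero.pos n)).tower_top
    exact h2.isAlgebraic
  rw [IntermediateField.adjoin_simple_toSubalgebra_of_isAlgebraic h1]
  exact hζ.adjoin_isCyclotomicExtension ℚ

/-- **Lower bound of the height in cyclotomic fields.** -/
theorem cyc_bound (m : ℕ) (hm : 0 < m) : ∀ (ζ : ℂ), IsPrimitiveRoot ζ m → ∀ x ∈ ℚ⟮ζ⟯, x ≠ 0 →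
    (∀ k : ℕ, 0 < k → x ^ k ≠ 1) → Real.log (5 / 2) / 10 ≤ ht x := by
  induction m using Nat.strong_induction_on with
  | _ m ih =>
  intro ζ hζ x hx hx0 hxt
  haveI : NeZero m := ⟨hm.ne'⟩
  haveI : Fact (Nat.Prime 5) := ⟨by norm_num⟩
  haveI hcyc : IsCyclotomicExtension {m} ℚ ℚ⟮ζ⟯ := cycC hζ
  haveI : NumberField ℚ⟮ζ⟯ := IsCyclotomicExtension.numberField {m} ℚ ℚ⟮ζ⟯
  haveI : IsGalois ℚ ℚ⟮ζ⟯ := IsCyclotomicExtension.isGalois {m} ℚ ℚ⟮ζ⟯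
  set Z : ℚ⟮ζ⟯ := ⟨ζ, mem_adjoin_simple_self ℚ ζ⟩ with hZ
  have hZp : IsPrimitiveRoot Z m := IsPrimitiveRoot.coe_submonoidClass_iff.1 hζ
  set X : ℚ⟮ζ⟯ := ⟨x, hx⟩ with hX
  have hX0 : X ≠ 0 := fun h => hx0 (congrArg Subtype.val h)
  have hht : ht x = logHeight₁ X / finrank ℚ ℚ⟮ζ⟯ := ht_eq' ℚ⟮ζ⟯ X
  have hd : (0 : ℝ) < finrank ℚ ℚ⟮ζ⟯ := by exact_mod_cast finrank_pos
  have hnn : 0 ≤ logHeight₁ X := zero_le_logHeight₁ X
  -- a good automorphism is enough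
  have good : ∀ (e : ℕ), 0 < e → e ≤ 5 → ∀ σ : ℚ⟮ζ⟯ ≃ₐ[ℚ] ℚ⟮ζ⟯,
      (∀ c : 𝓞 ℚ⟮ζ⟯, ((5 : ℕ) : 𝓞 ℚ⟮ζ⟯) ∣ c ^ 5 -
        (RingOfIntegers.mapRingEquiv (σ : ℚ⟮ζ⟯ ≃+* ℚ⟮ζ⟯) c) ^ e) → X ^ 5 ≠ (σ X) ^ e →
      Real.log (5 / 2) / 10 ≤ ht x := by
    intro e he0 he5 σ hc hne
    have h1 := height_ge 5 e (by norm_num) he0 (σ : ℚ⟮ζ⟯ ≃+* ℚ⟮ζ⟯) hc X hne
    have h2 : ((5 : ℕ) + e : ℝ) * logHeight₁ X ≤ 10 * logHeight₁ X := by
      apply mul_le_mul_of_nonneg_right _ hnn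
      have : (e : ℝ) ≤ 5 := by exact_mod_cast he5
      push_cast
      linarith
    rw [hht, le_div_iff₀ hd]
    push_cast at h1 h2
    linarith
  by_cases h5 : 5 ∣ m
  · obtain ⟨m', hm'⟩ := h5
    have hm'0 : 0 < m' := Nat.pos_of_ne_zero (by rintro rfl; omega)
    by_cases hex : ∃ σ : ℚ⟮ζ⟯ ≃ₐ[ℚ] ℚ⟮ζ⟯, σ (Z ^ 5) = Z ^ 5 ∧ X ^ 5 ≠ (σ X) ^ 5
    · obtain ⟨σ, h1, h2⟩ := hex
      exact good 5 (by norm_num) le_rfl σ (cong2 hZp 5 h1) h2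
    · push Not at hex
      have h3 : ∀ σ : ℚ⟮ζ⟯ ≃ₐ[ℚ] ℚ⟮ζ⟯, σ (Z ^ 5) = Z ^ 5 → (σ X) ^ 5 = X ^ 5 :=
        fun σ hσ => (hex σ hσ).symm
      obtain ⟨j, hj⟩ : ∃ j : ℕ, Z ^ j * X ∈ ℚ⟮Z ^ 5⟯ := by
        by_cases h6 : 5 ∣ m'
        · exact twist_B hZp 5 m' hm' h6 X hX0 h3
        · exact twist_A hZp 5 (by norm_num) m' hm' h6 X hX0 h3
      have hζ5 : IsPrimitiveRoot (ζ ^ 5) m' := hζ.pow hm hm'
      have hj' : ζ ^ j * x ∈ ℚ⟮ζ ^ 5⟯ := by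
        have h4 : ∀ y ∈ ℚ⟮Z ^ 5⟯, (y : ℂ) ∈ ℚ⟮ζ ^ 5⟯ := by
          intro y hy
          induction hy using adjoin_induction with
          | mem y hy =>
            rw [Set.mem_singleton_iff.1 hy]
            exact mem_adjoin_simple_self ℚ (ζ ^ 5)
          | algebraMap q =>
            have : ((algebraMap ℚ ℚ⟮ζ⟯ q : ℚ⟮ζ⟯) : ℂ) = algebraMap ℚ ℂ q := by simp
            rw [this]
            exact IntermediateField.algebraMap_mem _ q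
          | add a b _ _ ha hb => exact add_mem ha hb
          | inv a _ ha => exact inv_mem ha
          | mul a b _ _ ha hb => exact mul_mem ha hb
        exact h4 (Z ^ j * X) hj
      have hζj : (ζ ^ j) ^ m = 1 := by rw [← pow_mul, mul_comm, pow_mul, hζ.pow_eq_one, one_pow]
      have hxalg : IsAlgebraic ℚ x := by
        have : IsAlgebraic ℚ X := Algebra.IsAlgebraic.isAlgebraic X
        exact this.algebraMap (A := ℂ)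
      have h7 := ih m' (by omega) hm'0 (ζ ^ 5) hζ5 (ζ ^ j * x) hj'
        (mul_ne_zero (pow_ne_zero _ (hζ.ne_zero hm.ne')) hx0) (by
          intro k hk h8
          apply hxt (k * m) (Nat.mul_pos hk hm)
          have h9 : (ζ ^ j * x) ^ (k * m) = 1 := by rw [pow_mul, h8, one_pow]
          rw [mul_pow, mul_comm k m, pow_mul (ζ ^ j), hζj, one_pow, one_mul, mul_comm] at h9
          exact h9)
      rwa [ht_mul_torsion hxalg hm hζj] at h7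
  · have hcop : Nat.Coprime 5 m := (Nat.Prime.coprime_iff_not_dvd (by norm_num)).2 h5
    obtain ⟨σ, hσ⟩ := exists_aut hZp hcop
    refine good 1 one_pos (by norm_num) σ (cong1 hZp 5 hσ) ?_
    rw [pow_one]
    intro h
    -- `x` is a root of unity
    have h1 : ∀ i : ℕ, (σ ^ i) X = X ^ (5 ^ i) := by
      intro i
      induction i with
      | zero => simp
      | succ i ihi =>
        rw [pow_succ, AlgEquiv.mul_apply, ← h, map_pow, ihi, ← pow_mul, ← pow_succ]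
    have h2 := h1 (Nat.card (ℚ⟮ζ⟯ ≃ₐ[ℚ] ℚ⟮ζ⟯))
    rw [pow_card_eq_one', AlgEquiv.one_apply] at h2
    set N := Nat.card (ℚ⟮ζ⟯ ≃ₐ[ℚ] ℚ⟮ζ⟯) with hN
    have hNpos : 0 < N := Nat.card_pos
    have h3 : 1 < 5 ^ N := Nat.one_lt_pow hNpos.ne' (by norm_num)
    have h4 : X ^ (5 ^ N - 1) = 1 := by
      have h5 : X ^ (5 ^ N - 1) * X = 1 * X := by
        rw [← pow_succ, one_mul, Nat.sub_add_cancel h3.le]
        exact h2.symm
      exact mul_right_cancel₀ hX0 h5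
    apply hxt (5 ^ N - 1) (by omega)
    have h6 := congrArg (fun z : ℚ⟮ζ⟯ => (z : ℂ)) h4
    simpa using h6

/-- the field generated by all roots of unity -/
noncomputable def Qab : IntermediateField ℚ ℂ := adjoin ℚ {ζ : ℂ | ∃ k : ℕ, 0 < k ∧ ζ ^ k = 1}

lemma root_mem_Qab (k : ℕ) (ζ : ℂ) (hk : 0 < k) (h : ζ ^ k = 1) : ζ ∈ Qab :=
  subset_adjoin _ _ ⟨k, hk, h⟩

lemma adjoin_root_le {k n : ℕ} (hk : k ≠ 0) (hn : n ≠ 0) (h : k ∣ n) {z w : ℂ}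
    (hz : z ^ k = 1) (hw : IsPrimitiveRoot w n) : ℚ⟮z⟯ ≤ ℚ⟮w⟯ := by
  rw [adjoin_simple_le_iff]
  obtain ⟨c, rfl⟩ := h
  have h1 : z ^ (k * c) = 1 := by rw [pow_mul, hz, one_pow]
  haveI : NeZero (k * c) := ⟨hn⟩
  obtain ⟨i, -, hi⟩ := hw.eq_pow_of_pow_eq_one h1
  rw [← hi]
  exact pow_mem (mem_adjoin_simple_self ℚ w) i

lemma mem_Qab {x : ℂ} (hx : x ∈ Qab) : ∃ (m : ℕ) (ζ : ℂ), 0 < m ∧ IsPrimitiveRoot ζ m ∧
    x ∈ ℚ⟮ζ⟯ := by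
  have key : ∀ {a b : ℂ}, (∃ (m : ℕ) (ζ : ℂ), 0 < m ∧ IsPrimitiveRoot ζ m ∧ a ∈ ℚ⟮ζ⟯) →
      (∃ (m : ℕ) (ζ : ℂ), 0 < m ∧ IsPrimitiveRoot ζ m ∧ b ∈ ℚ⟮ζ⟯) →
      ∃ (m : ℕ) (ζ : ℂ), 0 < m ∧ IsPrimitiveRoot ζ m ∧ a ∈ ℚ⟮ζ⟯ ∧ b ∈ ℚ⟮ζ⟯ := by
    rintro a b ⟨m, ζ, hm, hζ, ha⟩ ⟨n, ξ, hn, hξ, hb⟩
    have hmn : m * n ≠ 0 := Nat.mul_ne_zero hm.ne' hn.ne'
    refine ⟨m * n, _, Nat.pos_of_ne_zero hmn, Complex.isPrimitiveRoot_exp (m * n) hmn, ?_, ?_⟩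
    · exact adjoin_root_le hm.ne' hmn (Dvd.intro _ rfl) hζ.pow_eq_one
        (Complex.isPrimitiveRoot_exp (m * n) hmn) ha
    · exact adjoin_root_le hn.ne' hmn (Dvd.intro_left _ rfl) hξ.pow_eq_one
        (Complex.isPrimitiveRoot_exp (m * n) hmn) hb
  unfold Qab at hx
  induction hx using adjoin_induction with
  | mem x hx =>
    obtain ⟨k, hk, h⟩ := hx
    refine ⟨k, _, hk, Complex.isPrimitiveRoot_exp k hk.ne', ?_⟩
    exact adjoin_root_le hk.ne' hk.ne' dvd_rfl h (Complex.isPrimitiveRoot_exp k hk.ne')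
      (mem_adjoin_simple_self ℚ x)
  | algebraMap q =>
    exact ⟨1, 1, one_pos, IsPrimitiveRoot.one, IntermediateField.algebraMap_mem _ q⟩
  | add a b _ _ ha hb =>
    obtain ⟨m, ζ, hm, hζ, h1, h2⟩ := key ha hb
    exact ⟨m, ζ, hm, hζ, add_mem h1 h2⟩
  | inv a _ ha =>
    obtain ⟨m, ζ, hm, hζ, h1⟩ := ha
    exact ⟨m, ζ, hm, hζ, inv_mem h1⟩
  | mul a b _ _ ha hb =>
    obtain ⟨m, ζ, hm, hζ, h1, h2⟩ := key ha hb
    exact ⟨m, ζ, hm, hζ, mul_mem h1 h2⟩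

/-- **Simultaneous Lehmer problem for radicals over `ℚ^ab`.** -/
theorem abelian {n : ℕ} (hn : 0 < n) (α : Fin n → ℂ) (h0 : ∀ i, α i ≠ 0)
    (hrad : ∀ i, ∃ k : ℕ, 0 < k ∧ α i ^ k ∈ Qab)
    (hind : ∀ m : Fin n → ℤ, ∏ i, α i ^ m i = 1 → m = 0) :
    (Real.log (5 / 2) / (10 * n)) ^ n / finrank Qab (adjoin Qab (Set.range α)) ≤
      ∏ i, ht (α i) := by
  have halg : ∀ i, IsAlgebraic ℚ (α i) := by
    intro i
    obtain ⟨k, hk, h⟩ := hrad i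
    obtain ⟨m, ζ, hm, hζ, h1⟩ := mem_Qab h
    haveI : NeZero m := ⟨hm.ne'⟩
    haveI : IsCyclotomicExtension {m} ℚ ℚ⟮ζ⟯ := cycC hζ
    haveI : NumberField ℚ⟮ζ⟯ := IsCyclotomicExtension.numberField {m} ℚ ℚ⟮ζ⟯
    have h2 : IsAlgebraic ℚ (α i ^ k) := by
      have : IsAlgebraic ℚ (⟨α i ^ k, h1⟩ : ℚ⟮ζ⟯) := Algebra.IsAlgebraic.isAlgebraic _
      exact this.algebraMap (A := ℂ)
    exact h2.of_pow hk
  have hmain := prod_ht_ge (F := Qab) root_mem_Qab hn α h0 halg hrad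
    (b := Real.log (5 / 2) / 10) (div_pos log_pos' (by norm_num)) (by
      intro w hw hF
      obtain ⟨m, ζ, hm, hζ, h1⟩ := mem_Qab hF
      refine cyc_bound m hm ζ hζ _ h1 (Finset.prod_ne_zero_iff.2 fun i _ => zpow_ne_zero _ (h0 i)) ?_
      intro k hk hpow
      apply hw
      have h2 : ∏ i, α i ^ ((k : ℤ) * w i) = 1 := by
        rw [← hpow, ← Finset.prod_pow]
        refine Finset.prod_congr rfl fun i _ => ?_
        rw [← zpow_natCast, ← zpow_mul, mul_comm]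
      have h3 := hind _ h2
      funext i
      have h4 := congrFun h3 i
      simp only [Pi.zero_apply, mul_eq_zero] at h4
      exact h4.resolve_left (by exact_mod_cast hk.ne'))
  rwa [div_div] at hmain

end Pool.Agent.helper79.SL
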