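import Pool.Agent.helper79.SL.Abs

set_option autoImplicit false

/-!
# Lower bound of the height from a congruence between `x ^ p` and `σ x ^ e`
-/

namespace Pool.Agent.helper79.SL

open NumberField Height Finset Module

section ring

variable {O : Type*} [CommRing O]

lemma pow_sub_pow_mem (I : Ideal O) (P : Ideal O) {x y : O} (hx : x ∈ I) (hy : y ∈ I)
    (h : x - y ∈ P * I) (k : ℕ) (hk : 0 < k) : x ^ k - y ^ k ∈ P * I ^ k := by
  obtain ⟨k, rfl⟩ : ∃ m, k = m + 1 := ⟨k - 1, by omega⟩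
  induction k with
  | zero => simpa using h
  | succ m ih =>
    have h1 := ih (by omega)
    have e : x ^ (m + 1 + 1) - y ^ (m + 1 + 1) = x * (x ^ (m + 1) - y ^ (m + 1)) +
        (x - y) * y ^ (m + 1) := by ring
    rw [e]
    refine add_mem ?_ ?_
    · have : P * I ^ (m + 1 + 1) = I * (P * I ^ (m + 1)) := by
        rw [pow_succ' I (m + 1)]; ring
      rw [this]
      exact Ideal.mul_mem_mul hx h1
    · have : P * I ^ (m + 1 + 1) = (P * I) * I ^ (m + 1) := by
        rw [pow_succ' I (m + 1)]; ring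
      rw [this]
      exact Ideal.mul_mem_mul h (Ideal.pow_mem_pow hy _)

/-- products of congruent elements -/
lemma mul_sub_mul_mem (P A B : Ideal O) {x x' y y' : O} (hy : y ∈ B) (hx' : x' ∈ A)
    (h1 : x - x' ∈ P * A) (h2 : y - y' ∈ P * B) : x * y - x' * y' ∈ P * (A * B) := by
  have e : x * y - x' * y' = (x - x') * y + x' * (y - y') := by ring
  rw [e]
  refine add_mem ?_ ?_
  · rw [← mul_assoc]
    exact Ideal.mul_mem_mul h1 hy
  · have : P * (A * B) = A * (P * B) := by ring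
    rw [this]
    exact Ideal.mul_mem_mul hx' h2

end ring

section poly

variable {A : Type*} [CommRing A]

open Polynomial in
lemma prime_dvd_pow_sub (p : ℕ) [hp : Fact p.Prime] (z : A) (P : ℤ[X]) :
    (p : A) ∣ (aeval z P) ^ p - aeval (z ^ p) P := by
  induction P using Polynomial.induction_on with
  | C c =>
    rw [eq_intCast, map_intCast, map_intCast]
    have h : (p : ℤ) ∣ c ^ p - c := by
      rw [← ZMod.intCast_zmod_eq_zero_iff_dvd]
      push_cast
      rw [ZMod.pow_card, sub_self]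
    obtain ⟨k, hk⟩ := h
    refine ⟨k, ?_⟩
    have := congrArg (fun z : ℤ => (z : A)) hk
    push_cast at this
    exact this
  | add P Q hP hQ =>
    obtain ⟨r, hr⟩ := exists_add_pow_prime_eq hp.out (aeval z P) (aeval z Q)
    rw [map_add, map_add, hr]
    have : (aeval z P) ^ p + (aeval z Q) ^ p + p * (aeval z P) * (aeval z Q) * r -
        (aeval (z ^ p) P + aeval (z ^ p) Q) = ((aeval z P) ^ p - aeval (z ^ p) P) +
        ((aeval z Q) ^ p - aeval (z ^ p) Q) + p * ((aeval z P) * (aeval z Q) * r) := by ring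
    rw [this]
    exact dvd_add (dvd_add hP hQ) (dvd_mul_right _ _)
  | monomial n c _ =>
    rw [map_mul, map_mul, eq_intCast, map_intCast, map_intCast, aeval_X_pow, aeval_X_pow]
    have h : (p : ℤ) ∣ c ^ p - c := by
      rw [← ZMod.intCast_zmod_eq_zero_iff_dvd]
      push_cast
      rw [ZMod.pow_card, sub_self]
    obtain ⟨k, hk⟩ := h
    refine ⟨k * (z ^ p) ^ (n + 1), ?_⟩
    have := congrArg (fun z : ℤ => (z : A)) hk
    push_cast at this
    rw [mul_pow, ← pow_mul, ← pow_mul, mul_comm (n + 1) p, ← sub_mul, this, mul_assoc]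

end poly

section field

variable {L : Type*} [Field L] [NumberField L]

lemma absNorm_map_equiv (s : 𝓞 L ≃+* 𝓞 L) (I : Ideal (𝓞 L)) :
    Ideal.absNorm (I.map (s : 𝓞 L →+* 𝓞 L)) = Ideal.absNorm I := by
  rw [Ideal.absNorm_apply, Ideal.absNorm_apply, Submodule.cardQuot_apply,
    Submodule.cardQuot_apply]
  exact (Nat.card_congr (Ideal.quotientEquiv I (I.map (s : 𝓞 L →+* 𝓞 L)) s rfl).toEquiv).symm

lemma abs_norm_eq (U : 𝓞 L) :
    (Ideal.absNorm (Ideal.span {U}) : ℝ) = ∏ φ : L →+* ℂ, ‖φ U‖ := by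
  rw [Ideal.absNorm_span_singleton, Nat.cast_natAbs]
  have h1 := prod_infinitePlace (K := L) (fun v => v (U : L))
  rw [InfinitePlace.prod_eq_abs_norm, ← Algebra.coe_norm_int] at h1
  push_cast at h1 ⊢
  rw [h1]
  rfl

lemma prod_comp (σ : L ≃+* L) (F : (L →+* ℂ) → ℝ) :
    ∏ φ : L →+* ℂ, F (φ.comp (σ : L →+* L)) = ∏ φ : L →+* ℂ, F φ := by
  refine Fintype.prod_equiv ⟨fun φ => φ.comp (σ : L →+* L), fun φ => φ.comp (σ.symm : L →+* L),
    fun φ => ?_, fun φ => ?_⟩ _ _ fun _ => rfl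
  · ext x; simp
  · ext x; simp

/-- the ideal theoretic part -/
lemma mem_cong (p e : ℕ) (hp : 0 < p) (he : 0 < e) (s : 𝓞 L ≃+* 𝓞 L)
    (hcong : ∀ c : 𝓞 L, (p : 𝓞 L) ∣ c ^ p - (s c) ^ e) (a b : 𝓞 L) (hb : b ≠ 0) :
    a ^ p * (s b) ^ e - b ^ p * (s a) ^ e ∈ Ideal.span {(p : 𝓞 L)} *
      ((Ideal.span {a, b}) ^ p * ((Ideal.span {a, b}).map (s : 𝓞 L →+* 𝓞 L)) ^ e) := by
  set I := Ideal.span {a, b} with hI
  set J := I.map (s : 𝓞 L →+* 𝓞 L) with hJ
  set P := Ideal.span {(p : 𝓞 L)} with hP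
  have ha : a ∈ I := Ideal.subset_span (by simp)
  have hb' : b ∈ I := Ideal.subset_span (by simp)
  have hPI0 : P * I ≠ 0 := by
    refine mul_ne_zero ?_ ?_
    · rw [hP, Ideal.zero_eq_bot, Ne, Ideal.span_singleton_eq_bot]
      exact_mod_cast hp.ne'
    · rw [Ideal.zero_eq_bot]
      intro h
      exact hb (by rw [h] at hb'; simpa using hb')
  obtain ⟨t, ht⟩ := IsDedekindDomain.exists_sup_span_eq (Ideal.mul_le_right : P * I ≤ I) hPI0
  have htI : t ∈ I := by
    rw [← ht]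
    exact Ideal.mem_sup_right (Ideal.mem_span_singleton_self t)
  have key : ∀ z ∈ I, ∃ c : 𝓞 L, z - c * t ∈ P * I := by
    intro z hz
    rw [← ht] at hz
    obtain ⟨u, hu, w, hw, rfl⟩ := Submodule.mem_sup.1 hz
    obtain ⟨c, rfl⟩ := Ideal.mem_span_singleton'.1 hw
    exact ⟨c, by simpa using hu⟩
  obtain ⟨c, hc⟩ := key a ha
  obtain ⟨d, hd⟩ := key b hb'
  have hmap : ∀ z ∈ I, s z ∈ J := fun z hz => Ideal.mem_map_of_mem (s : 𝓞 L →+* 𝓞 L) hz
  have hmap' : ∀ z ∈ P * I, s z ∈ P * J := by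
    intro z hz
    have h1 := Ideal.mem_map_of_mem (s : 𝓞 L →+* 𝓞 L) hz
    rw [Ideal.map_mul, hP, Ideal.map_span, Set.image_singleton] at h1
    simpa using h1
  have h1 : a ^ p - (c * t) ^ p ∈ P * I ^ p :=
    pow_sub_pow_mem I P ha (I.mul_mem_left _ htI) hc p hp
  have h2 : b ^ p - (d * t) ^ p ∈ P * I ^ p :=
    pow_sub_pow_mem I P hb' (I.mul_mem_left _ htI) hd p hp
  have h3 : (s a) ^ e - (s c * s t) ^ e ∈ P * J ^ e := by
    refine pow_sub_pow_mem J P (hmap a ha) (J.mul_mem_left _ (hmap t htI)) ?_ e he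
    rw [← map_mul, ← map_sub]
    exact hmap' _ hc
  have h4 : (s b) ^ e - (s d * s t) ^ e ∈ P * J ^ e := by
    refine pow_sub_pow_mem J P (hmap b hb') (J.mul_mem_left _ (hmap t htI)) ?_ e he
    rw [← map_mul, ← map_sub]
    exact hmap' _ hd
  have h5 := mul_sub_mul_mem P (I ^ p) (J ^ e) (Ideal.pow_mem_pow (hmap b hb') e)
    (Ideal.pow_mem_pow (I.mul_mem_left c htI) p) h1 h4
  have h6 := mul_sub_mul_mem P (I ^ p) (J ^ e) (Ideal.pow_mem_pow (hmap a ha) e)
    (Ideal.pow_mem_pow (I.mul_mem_left d htI) p) h2 h3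
  have h7 : (c * t) ^ p * (s d * s t) ^ e - (d * t) ^ p * (s c * s t) ^ e ∈
      P * (I ^ p * J ^ e) := by
    obtain ⟨u, hu⟩ := hcong c
    obtain ⟨v, hv⟩ := hcong d
    have e1 : (c * t) ^ p * (s d * s t) ^ e - (d * t) ^ p * (s c * s t) ^ e =
        ((p : 𝓞 L) * (u * (s d) ^ e - v * (s c) ^ e)) * (t ^ p * (s t) ^ e) := by
      rw [mul_pow, mul_pow, mul_pow, mul_pow]
      linear_combination (t ^ p * (s t) ^ e * (s d) ^ e) * hu -
        (t ^ p * (s t) ^ e * (s c) ^ e) * hv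
    rw [e1]
    exact Ideal.mul_mem_mul (Ideal.mul_mem_right _ _ (Ideal.mem_span_singleton_self _))
      (Ideal.mul_mem_mul (Ideal.pow_mem_pow htI p) (Ideal.pow_mem_pow (hmap t htI) e))
  have h8 := add_mem (sub_mem h5 h6) h7
  convert h8 using 1
  ring

/-- the basic lower bound -/
theorem height_ge (p e : ℕ) (hp : 0 < p) (he : 0 < e) (σ : L ≃+* L)
    (hcong : ∀ c : 𝓞 L, (p : 𝓞 L) ∣ c ^ p - (RingOfIntegers.mapRingEquiv σ c) ^ e)
    (x : L) (hx : x ^ p ≠ σ x ^ e) :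
    finrank ℚ L * Real.log (p / 2) ≤ (p + e) * logHeight₁ x := by
  obtain ⟨a, b, hb, rfl⟩ := IsFractionRing.div_surjective (A := 𝓞 L) x
  have hb0 : b ≠ 0 := nonZeroDivisors.ne_zero hb
  set s := RingOfIntegers.mapRingEquiv σ with hs
  have hmem := mem_cong p e hp he s hcong a b hb0
  set I := Ideal.span {a, b} with hI
  set U := a ^ p * (s b) ^ e - b ^ p * (s a) ^ e with hU
  have hbL : (b : L) ≠ 0 := by
    intro h
    exact hb0 (RingOfIntegers.ext (by simpa using h))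
  have hU0 : U ≠ 0 := by
    intro h
    apply hx
    have h1 : ((U : 𝓞 L) : L) = 0 := by rw [h]; rfl
    have h2 : (a : L) ^ p * (σ b) ^ e - (b : L) ^ p * (σ a) ^ e = 0 := by
      rw [← h1, hU]; simp; rfl
    have hsb : σ (b : L) ≠ 0 := (map_ne_zero σ).2 hbL
    rw [map_div₀, div_pow, div_pow, div_eq_div_iff (pow_ne_zero _ hbL) (pow_ne_zero _ hsb)]
    linear_combination h2
  -- the lower bound of the norm
  have hI0 : Ideal.absNorm I ≠ 0 := by
    rw [Ne, Ideal.absNorm_eq_zero_iff]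
    intro h
    apply hb0
    have : b ∈ I := Ideal.subset_span (by simp)
    rw [h] at this
    simpa using this
  have hdvd : Ideal.absNorm (Ideal.span {(p : 𝓞 L)} * (I ^ p *
      (I.map (s : 𝓞 L →+* 𝓞 L)) ^ e)) ∣ Ideal.absNorm (Ideal.span {U}) :=
    Ideal.absNorm_dvd_absNorm_of_le ((Ideal.span_singleton_le_iff_mem _).2 hmem)
  rw [map_mul, map_mul, map_pow, map_pow, absNorm_map_equiv, Ideal.absNorm_span_natCast,
    RingOfIntegers.rank, ← pow_add] at hdvd
  have hUn : Ideal.absNorm (Ideal.span {U}) ≠ 0 := by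
    rw [Ne, Ideal.absNorm_eq_zero_iff, Ideal.span_singleton_eq_bot]
    exact hU0
  have hle := Nat.le_of_dvd (Nat.pos_of_ne_zero hUn) hdvd
  -- the upper bound
  set M : ℝ := ∏ φ : L →+* ℂ, max ‖φ a‖ ‖φ b‖ with hM
  have hub : (Ideal.absNorm (Ideal.span {U}) : ℝ) ≤ 2 ^ finrank ℚ L * M ^ (p + e) := by
    rw [abs_norm_eq]
    have h1 : ∀ φ : L →+* ℂ, ‖φ U‖ ≤ 2 * ((max ‖φ a‖ ‖φ b‖) ^ p *
        (max ‖φ.comp (σ : L →+* L) a‖ ‖φ.comp (σ : L →+* L) b‖) ^ e) := by
      intro φ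
      have e1 : φ U = (φ a) ^ p * (φ.comp (σ : L →+* L) b) ^ e -
          (φ b) ^ p * (φ.comp (σ : L →+* L) a) ^ e := by
        have : ((U : 𝓞 L) : L) = (a : L) ^ p * (σ b) ^ e - (b : L) ^ p * (σ a) ^ e := by
          rw [hU]; simp; rfl
        rw [this]
        simp
      rw [e1]
      refine (norm_sub_le _ _).trans ?_
      rw [norm_mul, norm_mul, norm_pow, norm_pow, norm_pow, norm_pow, two_mul]
      refine add_le_add ?_ ?_
      · exact mul_le_mul (pow_le_pow_left₀ (norm_nonneg _) (le_max_left _ _) _)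
          (pow_le_pow_left₀ (norm_nonneg _) (le_max_right _ _) _) (by positivity) (by positivity)
      · exact mul_le_mul (pow_le_pow_left₀ (norm_nonneg _) (le_max_right _ _) _)
          (pow_le_pow_left₀ (norm_nonneg _) (le_max_left _ _) _) (by positivity) (by positivity)
    refine (Finset.prod_le_prod (fun φ _ => norm_nonneg _) fun φ _ => h1 φ).trans ?_
    rw [Finset.prod_mul_distrib, Finset.prod_mul_distrib, Finset.prod_pow,
      Finset.prod_pow, prod_comp σ (fun φ => max ‖φ a‖ ‖φ b‖), ← hM, ← pow_add,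
      Finset.prod_const, Finset.card_univ, Embeddings.card]
  have hMh : M = mulHeight₁ ((a : L) / b) * Ideal.absNorm I := (mulHeight₁_frac a b hb0).symm
  have hmain : ((p : ℝ)) ^ finrank ℚ L ≤ 2 ^ finrank ℚ L * mulHeight₁ ((a : L) / b) ^ (p + e) := by
    have h1 : ((p : ℝ)) ^ finrank ℚ L * (Ideal.absNorm I : ℝ) ^ (p + e) ≤
        (2 ^ finrank ℚ L * mulHeight₁ ((a : L) / b) ^ (p + e)) *
          (Ideal.absNorm I : ℝ) ^ (p + e) := by
      calc _ = ((p ^ finrank ℚ L * Ideal.absNorm I ^ (p + e) : ℕ) : ℝ) := by push_cast; rfl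
        _ ≤ (Ideal.absNorm (Ideal.span {U}) : ℝ) := by exact_mod_cast hle
        _ ≤ _ := hub
        _ = _ := by rw [hMh, mul_pow]; ring
    exact le_of_mul_le_mul_right h1 (by positivity)
  have hp' : (0 : ℝ) < p := by exact_mod_cast hp
  have h2 : ((p : ℝ) / 2) ^ finrank ℚ L ≤ mulHeight₁ ((a : L) / b) ^ (p + e) := by
    rw [div_pow, div_le_iff₀ (by positivity)]
    linarith [hmain, mul_comm ((2 : ℝ) ^ finrank ℚ L) (mulHeight₁ ((a : L) / b) ^ (p + e))]
  have h3 := Real.log_le_log (by positivity) h2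
  rw [Real.log_pow, Real.log_pow, ← logHeight₁_eq_log_mulHeight₁] at h3
  push_cast at h3
  exact h3

end field

end Pool.Agent.helper79.SL
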