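import Mathlib

set_option autoImplicit false

/-!
# Base change for the height on number fields
-/

namespace Pool.Agent.helper79.SL

open NumberField Height Finset Module

section

variable {K L : Type*} [Field K] [NumberField K] [Field L] [NumberField L] [Algebra K L]

/-- products over infinite places are products over embeddings -/
lemma prod_infinitePlace (G : InfinitePlace K → ℝ) :
    ∏ v : InfinitePlace K, G v ^ v.mult = ∏ φ : K →+* ℂ, G (InfinitePlace.mk φ) := by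
  classical
  rw [← Finset.prod_fiberwise (s := (Finset.univ : Finset (K →+* ℂ))) (g := InfinitePlace.mk)
    (f := fun φ => G (InfinitePlace.mk φ))]
  refine Finset.prod_congr rfl fun v _ => ?_
  have : ∀ φ ∈ Finset.univ.filter (fun φ : K →+* ℂ => InfinitePlace.mk φ = v),
      G (InfinitePlace.mk φ) = G v := by
    intro φ hφ
    rw [(Finset.mem_filter.1 hφ).2]
  rw [Finset.prod_congr rfl this, Finset.prod_const, InfinitePlace.card_filter_mk_eq]

lemma iSup_two (f : Fin 2 → ℝ) : ⨆ i, f i = max (f 0) (f 1) := by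
  apply le_antisymm
  · exact ciSup_le fun i => by fin_cases i <;> simp
  · exact max_le (le_ciSup (Set.finite_range f).bddAbove 0)
      (le_ciSup (Set.finite_range f).bddAbove 1)

lemma card_fiber (φ : K →+* ℂ) (s : Finset (L →+* ℂ))
    (hs : ∀ ψ, ψ ∈ s ↔ ψ.comp (algebraMap K L) = φ) : #s = finrank K L := by
  classical
  letI : Algebra K ℂ := φ.toAlgebra
  have : FiniteDimensional K L := FiniteDimensional.right ℚ K L
  rw [← AlgHom.card K L ℂ, ← Fintype.card_coe]
  refine Fintype.card_congr ⟨fun ψ => ⟨ψ.1, fun r => ?_⟩, fun ψ => ⟨ψ.toRingHom, ?_⟩, ?_, ?_⟩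
  · exact RingHom.congr_fun ((hs _).1 ψ.2) r
  · rw [hs]
    ext r
    exact ψ.commutes r
  · intro ψ
    rfl
  · intro ψ
    rfl

lemma prod_embeddings (F : (K →+* ℂ) → ℝ) :
    ∏ ψ : L →+* ℂ, F (ψ.comp (algebraMap K L)) = (∏ φ : K →+* ℂ, F φ) ^ finrank K L := by
  classical
  rw [← Finset.prod_fiberwise (s := (Finset.univ : Finset (L →+* ℂ)))
    (g := fun ψ => ψ.comp (algebraMap K L)) (f := fun ψ => F (ψ.comp (algebraMap K L))),
    ← Finset.prod_pow]
  refine Finset.prod_congr rfl fun φ _ => ?_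
  have : ∀ ψ ∈ Finset.univ.filter (fun ψ : L →+* ℂ => ψ.comp (algebraMap K L) = φ),
      F (ψ.comp (algebraMap K L)) = F φ := by
    intro ψ hψ
    rw [(Finset.mem_filter.1 hψ).2]
  rw [Finset.prod_congr rfl this, Finset.prod_const, card_fiber φ _ (fun ψ => by simp)]

lemma absNorm_map (I : Ideal (𝓞 K)) :
    Ideal.absNorm (I.map (algebraMap (𝓞 K) (𝓞 L))) = Ideal.absNorm I ^ finrank K L := by
  rw [← Ideal.absNorm_relNorm (R := 𝓞 K), Ideal.relNorm_algebraMap (𝓞 L) I, map_pow,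
    IsFractionRing.finrank_eq (𝓞 K) K (𝓞 L) L]

/-- height of a fraction in terms of an ideal norm -/
lemma mulHeight₁_frac (a b : 𝓞 K) (hb : b ≠ 0) :
    mulHeight₁ ((a : K) / b) * Ideal.absNorm (Ideal.span {a, b}) =
      ∏ φ : K →+* ℂ, max ‖φ a‖ ‖φ b‖ := by
  classical
  have hne : (![a, b] : Fin 2 → 𝓞 K) ≠ 0 := by
    intro h
    exact hb (by simpa using congrFun h 1)
  have hne' : (![(a : K), (b : K)] : Fin 2 → K) ≠ 0 := by
    intro h
    exact hb (by simpa using congrFun h 1)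
  have h1 := NumberField.absNorm_mul_finprod_finitePlace_eq_one hne
  have h2 : Set.range ![a, b] = {a, b} := by simp [Set.pair_comm]
  rw [h2] at h1
  rw [mulHeight₁_div_eq_mulHeight, NumberField.mulHeight_eq hne']
  have h3 : (fun v : FinitePlace K => ⨆ i, v ((![(a : K), (b : K)] : Fin 2 → K) i)) =
      fun v : FinitePlace K => ⨆ i, v ((![a, b] : Fin 2 → 𝓞 K) i) := by
    funext v
    congr 1
    funext i
    fin_cases i <;> rfl
  rw [h3, mul_assoc, mul_comm (∏ᶠ v : FinitePlace K, _) _, h1, mul_one,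
    prod_infinitePlace (fun v : InfinitePlace K => ⨆ i, v ((![(a : K), (b : K)] : Fin 2 → K) i))]
  refine Finset.prod_congr rfl fun φ _ => ?_
  rw [iSup_two]
  rfl

theorem mulHeight₁_algebraMap (x : K) :
    mulHeight₁ (algebraMap K L x) = mulHeight₁ x ^ finrank K L := by
  obtain ⟨a, b, hb, rfl⟩ := IsFractionRing.div_surjective (A := 𝓞 K) x
  have hb0 : b ≠ 0 := nonZeroDivisors.ne_zero hb
  have hb1 : algebraMap (𝓞 K) (𝓞 L) b ≠ 0 := by
    intro h
    apply hb0
    have h1 : algebraMap (𝓞 K) (𝓞 L) b = algebraMap (𝓞 K) (𝓞 L) 0 := by rw [h, map_zero]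
    exact FaithfulSMul.algebraMap_injective (𝓞 K) (𝓞 L) h1
  have h1 := mulHeight₁_frac a b hb0
  have h2 := mulHeight₁_frac (algebraMap (𝓞 K) (𝓞 L) a) (algebraMap (𝓞 K) (𝓞 L) b) hb1
  have h3 : Ideal.absNorm (Ideal.span {algebraMap (𝓞 K) (𝓞 L) a, algebraMap (𝓞 K) (𝓞 L) b}) =
      Ideal.absNorm (Ideal.span {a, b}) ^ finrank K L := by
    rw [← absNorm_map, Ideal.map_span, Set.image_pair]
  have h4 : ∀ c : 𝓞 K, ((algebraMap (𝓞 K) (𝓞 L) c : 𝓞 L) : L) = algebraMap K L (c : K) :=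
    fun c => rfl
  have h5 : ∏ ψ : L →+* ℂ, max ‖ψ ((algebraMap (𝓞 K) (𝓞 L) a : 𝓞 L) : L)‖
      ‖ψ ((algebraMap (𝓞 K) (𝓞 L) b : 𝓞 L) : L)‖ =
      (∏ φ : K →+* ℂ, max ‖φ a‖ ‖φ b‖) ^ finrank K L := by
    rw [← prod_embeddings (L := L) (fun φ : K →+* ℂ => max ‖φ a‖ ‖φ b‖)]
    rfl
  rw [h3, h5, ← h1, mul_pow, Nat.cast_pow] at h2
  have h6 : ((Ideal.absNorm (Ideal.span {a, b}) : ℕ) : ℝ) ^ finrank K L ≠ 0 := by
    apply pow_ne_zero
    rw [Nat.cast_ne_zero, Ne, Ideal.absNorm_eq_zero_iff]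
    intro h
    apply hb0
    have : b ∈ Ideal.span {a, b} := Ideal.subset_span (by simp)
    rw [h] at this
    simpa using this
  have h7 := mul_right_cancel₀ h6 h2
  have h8 : algebraMap K L (algebraMap (𝓞 K) K a / algebraMap (𝓞 K) K b) =
      ((algebraMap (𝓞 K) (𝓞 L) a : 𝓞 L) : L) / ((algebraMap (𝓞 K) (𝓞 L) b : 𝓞 L) : L) := by
    rw [map_div₀]
    rfl
  rw [h8]
  exact h7

theorem logHeight₁_algebraMap (x : K) :
    logHeight₁ (algebraMap K L x) = finrank K L * logHeight₁ x := by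
  rw [logHeight₁_eq_log_mulHeight₁, mulHeight₁_algebraMap, Real.log_pow,
    ← logHeight₁_eq_log_mulHeight₁]

end

end Pool.Agent.helper79.SL
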