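import Pool.Agent.helper79.SL.Sch
import Pool.Agent.helper79.SL.Ab

set_option autoImplicit false

/-!
# Radicals over number fields of bounded degree
-/

namespace Pool.Agent.helper79.SL

open NumberField Height Finset Module IntermediateField Polynomial

/-- the degree over a bigger field is not bigger -/
lemma finrank_adjoin_le (F : IntermediateField ℚ ℂ) {S : Set ℂ} (hS : S.Finite)
    (halg : ∀ x ∈ S, IsAlgebraic ℚ x) :
    finrank F (adjoin F S) ≤ finrank ℚ (adjoin ℚ S) := by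
  haveI : FiniteDimensional ℚ (adjoin ℚ S) := by
    haveI := hS.to_subtype
    exact finiteDimensional_adjoin fun x hx => (halg x hx).isIntegral
  have h1 := adjoin_rank_le_of_isAlgebraic_right (E := F) (adjoin ℚ S)
  have h2 : adjoin F ((adjoin ℚ S : IntermediateField ℚ ℂ) : Set ℂ) = adjoin F S := by
    apply le_antisymm
    · rw [adjoin_le_iff]
      have h3 : adjoin ℚ S ≤ (adjoin F S).restrictScalars ℚ := by
        rw [adjoin_le_iff]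
        exact subset_adjoin F S
      exact h3
    · exact adjoin.mono F _ _ (subset_adjoin ℚ S)
  rw [h2] at h1
  have h3 : Module.rank ℚ (adjoin ℚ S) < Cardinal.aleph0 := rank_lt_aleph0 ℚ _
  exact Cardinal.toNat_le_toNat h1 h3

/-- `K (μ_∞)` -/
noncomputable def Kinf (K : IntermediateField ℚ ℂ) : IntermediateField ℚ ℂ :=
  adjoin ℚ ((K : Set ℂ) ∪ {ζ : ℂ | ∃ k : ℕ, 0 < k ∧ ζ ^ k = 1})

lemma root_mem_Kinf (K : IntermediateField ℚ ℂ) (k : ℕ) (ζ : ℂ) (hk : 0 < k) (h : ζ ^ k = 1) :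
    ζ ∈ Kinf K := subset_adjoin _ _ (Or.inr ⟨k, hk, h⟩)

lemma le_Kinf (K : IntermediateField ℚ ℂ) : K ≤ Kinf K := fun x hx =>
  subset_adjoin ℚ _ (Or.inl hx)

lemma adjoin_root_leK (K : IntermediateField ℚ ℂ) {k n : ℕ} (hn : n ≠ 0) (h : k ∣ n) {z w : ℂ}
    (hz : z ^ k = 1) (hw : IsPrimitiveRoot w n) : K⟮z⟯ ≤ K⟮w⟯ := by
  rw [adjoin_simple_le_iff]
  obtain ⟨c, rfl⟩ := h
  have h1 : z ^ (k * c) = 1 := by rw [pow_mul, hz, one_pow]
  haveI : NeZero (k * c) := ⟨hn⟩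
  obtain ⟨i, -, hi⟩ := hw.eq_pow_of_pow_eq_one h1
  rw [← hi]
  exact pow_mem (mem_adjoin_simple_self K w) i

lemma mem_Kinf {K : IntermediateField ℚ ℂ} {x : ℂ} (hx : x ∈ Kinf K) (k : ℕ) (hk : 0 < k) :
    ∃ (m : ℕ) (ζ : ℂ), 0 < m ∧ k ∣ m ∧ IsPrimitiveRoot ζ m ∧ x ∈ K⟮ζ⟯ := by
  have key : ∀ {a b : ℂ}, (∃ (m : ℕ) (ζ : ℂ), 0 < m ∧ k ∣ m ∧ IsPrimitiveRoot ζ m ∧ a ∈ K⟮ζ⟯) →
      (∃ (m : ℕ) (ζ : ℂ), 0 < m ∧ k ∣ m ∧ IsPrimitiveRoot ζ m ∧ b ∈ K⟮ζ⟯) →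
      ∃ (m : ℕ) (ζ : ℂ), 0 < m ∧ k ∣ m ∧ IsPrimitiveRoot ζ m ∧ a ∈ K⟮ζ⟯ ∧ b ∈ K⟮ζ⟯ := by
    rintro a b ⟨m, ζ, hm, hkm, hζ, ha⟩ ⟨n, ξ, hn, -, hξ, hb⟩
    have hmn : m * n ≠ 0 := Nat.mul_ne_zero hm.ne' hn.ne'
    refine ⟨m * n, _, Nat.pos_of_ne_zero hmn, hkm.mul_right n,
      Complex.isPrimitiveRoot_exp (m * n) hmn, ?_, ?_⟩
    · exact adjoin_root_leK K hmn (Dvd.intro _ rfl) hζ.pow_eq_one
        (Complex.isPrimitiveRoot_exp (m * n) hmn) ha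
    · exact adjoin_root_leK K hmn (Dvd.intro_left _ rfl) hξ.pow_eq_one
        (Complex.isPrimitiveRoot_exp (m * n) hmn) hb
  unfold Kinf at hx
  induction hx using adjoin_induction with
  | mem x hx =>
    rcases hx with hx | ⟨j, hj, h⟩
    · refine ⟨k, _, hk, dvd_rfl, Complex.isPrimitiveRoot_exp k hk.ne', ?_⟩
      exact IntermediateField.algebraMap_mem _ (⟨x, hx⟩ : K)
    · have hkj : k * j ≠ 0 := Nat.mul_ne_zero hk.ne' hj.ne'
      refine ⟨k * j, _, Nat.pos_of_ne_zero hkj, Dvd.intro _ rfl,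
        Complex.isPrimitiveRoot_exp (k * j) hkj, ?_⟩
      exact adjoin_root_leK K hkj (Dvd.intro_left _ rfl) h (Complex.isPrimitiveRoot_exp _ hkj)
        (mem_adjoin_simple_self K x)
  | algebraMap q =>
    refine ⟨k, _, hk, dvd_rfl, Complex.isPrimitiveRoot_exp k hk.ne', ?_⟩
    exact IntermediateField.algebraMap_mem _ (algebraMap ℚ K q)
  | add a b _ _ ha hb =>
    obtain ⟨m, ζ, hm, hkm, hζ, h1, h2⟩ := key ha hb
    exact ⟨m, ζ, hm, hkm, hζ, add_mem h1 h2⟩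
  | inv a _ ha =>
    obtain ⟨m, ζ, hm, hkm, hζ, h1⟩ := ha
    exact ⟨m, ζ, hm, hkm, hζ, inv_mem h1⟩
  | mul a b _ _ ha hb =>
    obtain ⟨m, ζ, hm, hkm, hζ, h1, h2⟩ := key ha hb
    exact ⟨m, ζ, hm, hkm, hζ, mul_mem h1 h2⟩

lemma isAlgebraic_of_mem {K : IntermediateField ℚ ℂ} [FiniteDimensional ℚ K] {x : ℂ}
    (hx : x ∈ K) : IsAlgebraic ℚ x := by
  have : IsAlgebraic ℚ (⟨x, hx⟩ : K) := Algebra.IsAlgebraic.isAlgebraic _
  exact this.algebraMap (A := ℂ)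

/-- lower bound of the height for the radicals over `K` in `K (μ_∞)` -/
lemma radical_bound (m : ℕ) : ∃ c : ℝ, 0 < c ∧ ∀ K : IntermediateField ℚ ℂ,
    FiniteDimensional ℚ K → finrank ℚ K ≤ m → ∀ g ∈ Kinf K, g ≠ 0 →
    (∀ k : ℕ, 0 < k → g ^ k ≠ 1) → (∃ k : ℕ, 0 < k ∧ g ^ k ∈ K) → c ≤ ht g := by
  obtain ⟨c, hc, h⟩ := northcott m
  have hw : (0 : ℝ) < wexp m := by exact_mod_cast wexp_pos m
  refine ⟨c / wexp m, div_pos hc hw, ?_⟩
  rintro K hK hd g hg hg0 hgt ⟨k, hk, hgk⟩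
  obtain ⟨N, ζ, hN, hkN, hζ, hgN⟩ := mem_Kinf hg k hk
  obtain ⟨ξ, hξ, hmem⟩ := schinzel hd hN hkN hζ hg0 hgN hgk
  have hgalg : IsAlgebraic ℚ g := (isAlgebraic_of_mem hgk).of_pow hk
  have hξ0 : ξ ≠ 0 := by
    rintro rfl
    rw [zero_pow hN.ne'] at hξ
    exact zero_ne_one hξ
  have h1 := h K hK hd _ hmem (mul_ne_zero hξ0 (pow_ne_zero _ hg0)) (by
    intro j hj h2
    apply hgt (wexp m * (j * N)) (Nat.mul_pos (wexp_pos m) (Nat.mul_pos hj hN))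
    have h3 : (ξ * g ^ wexp m) ^ (j * N) = 1 := by rw [pow_mul, h2, one_pow]
    rw [mul_pow, mul_comm j N, pow_mul ξ, hξ, one_pow, one_mul, ← pow_mul, mul_comm N j] at h3
    exact h3)
  rw [ht_mul_torsion (hgalg.pow _) hN hξ, ht_pow hgalg] at h1
  rw [div_le_iff₀ hw, mul_comm]
  exact h1

/-- **Simultaneous Lehmer problem for radicals over number fields of bounded degree**,
relative form. -/
theorem bounded_degree_rel (n m : ℕ) (hn : 0 < n) : ∃ c : ℝ, 0 < c ∧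
    ∀ K : IntermediateField ℚ ℂ, FiniteDimensional ℚ K → finrank ℚ K ≤ m →
    ∀ α : Fin n → ℂ, (∀ i, α i ≠ 0) → (∀ i, ∃ k : ℕ, 0 < k ∧ α i ^ k ∈ K) →
    (∀ w : Fin n → ℤ, ∏ i, α i ^ w i = 1 → w = 0) →
    c / finrank (Kinf K) (adjoin (Kinf K) (Set.range α)) ≤ ∏ i, ht (α i) := by
  obtain ⟨b, hb, h⟩ := radical_bound m
  have hn' : (0 : ℝ) < n := by exact_mod_cast hn
  refine ⟨(b / n) ^ n, by positivity, ?_⟩
  intro K hK hd α h0 hrad hind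
  have halg : ∀ i, IsAlgebraic ℚ (α i) := by
    intro i
    obtain ⟨k, hk, h1⟩ := hrad i
    exact (isAlgebraic_of_mem h1).of_pow hk
  refine prod_ht_ge (F := Kinf K) (root_mem_Kinf K) hn α h0 halg
    (fun i => (hrad i).imp fun k hk => ⟨hk.1, le_Kinf K hk.2⟩) hb ?_
  intro w hw hF
  refine h K hK hd _ hF (Finset.prod_ne_zero_iff.2 fun i _ => zpow_ne_zero _ (h0 i)) ?_ ?_
  · intro k hk hpow
    apply hw
    have h2 : ∏ i, α i ^ ((k : ℤ) * w i) = 1 := by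
      rw [← hpow, ← Finset.prod_pow]
      refine Finset.prod_congr rfl fun i _ => ?_
      rw [← zpow_natCast, ← zpow_mul, mul_comm]
    have h3 := hind _ h2
    funext i
    have h4 := congrFun h3 i
    simp only [Pi.zero_apply, mul_eq_zero] at h4
    exact h4.resolve_left (by exact_mod_cast hk.ne')
  · choose k hk hkK using hrad
    refine ⟨∏ i, k i, Finset.prod_pos fun i _ => hk i, ?_⟩
    rw [← Finset.prod_pow]
    refine prod_mem fun i _ => ?_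
    rw [← Finset.mul_prod_erase Finset.univ k (Finset.mem_univ i), ← zpow_natCast, ← zpow_mul]
    have e1 : w i * ((k i * ∏ x ∈ Finset.univ.erase i, k x : ℕ) : ℤ) =
        (k i : ℤ) * (w i * ((∏ x ∈ Finset.univ.erase i, k x : ℕ) : ℤ)) := by push_cast; ring
    rw [e1, zpow_mul, zpow_natCast]
    exact zpow_mem (hkK i) _

end Pool.Agent.helper79.SL
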