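import Pool.Agent.helper79.SL.AD

set_option autoImplicit false

/-!
# Lower bound of the height in cyclotomic fields
-/

namespace Pool.Agent.helper79.SL

open NumberField Height Finset Module IntermediateField Polynomial

section cyc

variable {K : Type*} [Field K] [NumberField K] {m : ℕ} [NeZero m] [IsCyclotomicExtension {m} ℚ K]
  {ζ : K}

lemma exists_aut (hζ : IsPrimitiveRoot ζ m) {k : ℕ} (hk : k.Coprime m) :
    ∃ σ : K ≃ₐ[ℚ] K, σ ζ = ζ ^ k := by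
  have hirr := Polynomial.cyclotomic.irreducible_rat (NeZero.pos m)
  have h' : IsPrimitiveRoot (ζ ^ k) m := hζ.pow_of_coprime k hk
  have hmin : minpoly ℚ (hζ.powerBasis ℚ).gen = minpoly ℚ (h'.powerBasis ℚ).gen := by
    rw [hζ.powerBasis_gen ℚ, h'.powerBasis_gen ℚ,
      ← hζ.minpoly_eq_cyclotomic_of_irreducible hirr,
      ← h'.minpoly_eq_cyclotomic_of_irreducible hirr]
  refine ⟨(hζ.powerBasis ℚ).equivOfMinpoly (h'.powerBasis ℚ) hmin, ?_⟩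
  have := (hζ.powerBasis ℚ).equivOfMinpoly_gen (h'.powerBasis ℚ) hmin
  rwa [hζ.powerBasis_gen ℚ, h'.powerBasis_gen ℚ] at this

lemma aut_ext (hζ : IsPrimitiveRoot ζ m) {σ τ : K ≃ₐ[ℚ] K} (h : σ ζ = τ ζ) : σ = τ := by
  apply AlgEquiv.coe_toAlgHom_injective
  apply (hζ.powerBasis ℚ).algHom_ext
  rw [hζ.powerBasis_gen ℚ]
  exact h

lemma aut_pow (hζ : IsPrimitiveRoot ζ m) (σ : K ≃ₐ[ℚ] K) : ∃ k : ℕ, σ ζ = ζ ^ k :=
  ⟨_, (hζ.autToPow_spec ℚ σ).symm⟩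

lemma exists_poly (hζ : IsPrimitiveRoot ζ m) (c : 𝓞 K) :
    ∃ P : ℤ[X], c = aeval hζ.toInteger P := by
  have h1 := IsCyclotomicExtension.Rat.adjoin_singleton_eq_top (n := m) (K := K) hζ
  have h2 : c ∈ Algebra.adjoin ℤ {hζ.toInteger} := by rw [h1]; trivial
  rw [Algebra.adjoin_singleton_eq_range_aeval] at h2
  obtain ⟨P, hP⟩ := h2
  exact ⟨P, hP.symm⟩

lemma map_aeval_int (s : 𝓞 K ≃+* 𝓞 K) (z : 𝓞 K) (P : ℤ[X]) : s (aeval z P) = aeval (s z) P := by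
  have := Polynomial.aeval_algHom_apply (s : 𝓞 K →+* 𝓞 K).toIntAlgHom z P
  exact this.symm

lemma cong1 (hζ : IsPrimitiveRoot ζ m) (p : ℕ) [hp : Fact p.Prime] {σ : K ≃ₐ[ℚ] K}
    (hσ : σ ζ = ζ ^ p) (c : 𝓞 K) :
    (p : 𝓞 K) ∣ c ^ p - (RingOfIntegers.mapRingEquiv (σ : K ≃+* K) c) ^ 1 := by
  obtain ⟨P, rfl⟩ := exists_poly hζ c
  have h1 : RingOfIntegers.mapRingEquiv (σ : K ≃+* K) hζ.toInteger = hζ.toInteger ^ p := by
    apply RingOfIntegers.ext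
    rw [RingOfIntegers.mapRingEquiv_apply]
    simpa using hσ
  rw [pow_one, map_aeval_int, h1]
  exact prime_dvd_pow_sub p hζ.toInteger P

lemma cong2 (hζ : IsPrimitiveRoot ζ m) (p : ℕ) [hp : Fact p.Prime] {σ : K ≃ₐ[ℚ] K}
    (hσ : σ (ζ ^ p) = ζ ^ p) (c : 𝓞 K) :
    (p : 𝓞 K) ∣ c ^ p - (RingOfIntegers.mapRingEquiv (σ : K ≃+* K) c) ^ p := by
  obtain ⟨P, rfl⟩ := exists_poly hζ c
  have h1 : (RingOfIntegers.mapRingEquiv (σ : K ≃+* K) hζ.toInteger) ^ p = hζ.toInteger ^ p := by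
    rw [← map_pow]
    apply RingOfIntegers.ext
    rw [RingOfIntegers.mapRingEquiv_apply]
    simpa using hσ
  have h2 := prime_dvd_pow_sub p hζ.toInteger P
  have h3 := prime_dvd_pow_sub p (RingOfIntegers.mapRingEquiv (σ : K ≃+* K) hζ.toInteger) P
  rw [h1] at h3
  rw [map_aeval_int]
  have := dvd_sub h2 h3
  convert this using 1
  ring

/-- elements fixed by all automorphisms which fix `ζ ^ p` -/
lemma mem_of_fixed [IsGalois ℚ K] (z y : K) (h : ∀ σ : K ≃ₐ[ℚ] K, σ z = z → σ y = y) : y ∈ ℚ⟮z⟯ := by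
  rw [← IsGalois.fixedField_fixingSubgroup ℚ⟮z⟯, IntermediateField.mem_fixedField_iff]
  intro σ hσ
  rw [IntermediateField.mem_fixingSubgroup_iff] at hσ
  exact h σ (hσ z (mem_adjoin_simple_self ℚ z))

lemma twist_A [IsGalois ℚ K] (hζ : IsPrimitiveRoot ζ m) (p : ℕ) [hp : Fact p.Prime] (hp2 : p ≠ 2)
    (m' : ℕ) (hm : m = p * m') (hpm : ¬ p ∣ m') (X : K) (hX : X ≠ 0)
    (h : ∀ σ : K ≃ₐ[ℚ] K, σ (ζ ^ p) = ζ ^ p → (σ X) ^ p = X ^ p) :
    ∃ j : ℕ, ζ ^ j * X ∈ ℚ⟮ζ ^ p⟯ := by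
  have hζ0 : ζ ≠ 0 := hζ.ne_zero (NeZero.ne m)
  have hη : IsPrimitiveRoot (ζ ^ m') p := hζ.pow (NeZero.pos m) (by rw [hm, mul_comm])
  have hcop : Nat.Coprime p m' := (Nat.Prime.coprime_iff_not_dvd hp.out).2 hpm
  obtain ⟨k, hk1, hk2⟩ := Nat.chineseRemainder hcop 2 1
  have hkp : Nat.Coprime k p := by
    rw [Nat.coprime_comm, Nat.Prime.coprime_iff_not_dvd hp.out]
    intro hd
    have h1 : 2 ≡ 0 [MOD p] := hk1.symm.trans (Nat.modEq_zero_iff_dvd.2 hd)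
    have h2 : p ∣ 2 := Nat.modEq_zero_iff_dvd.1 h1
    exact hp2 ((Nat.prime_dvd_prime_iff_eq hp.out Nat.prime_two).1 h2)
  have hkm' : Nat.Coprime k m' := by
    have := hk2.gcd_eq
    rw [Nat.gcd_one_left] at this
    exact this
  have hkm : k.Coprime m := by rw [hm]; exact Nat.Coprime.mul_right hkp hkm'
  obtain ⟨σ₀, hσ₀⟩ := exists_aut hζ hkm
  have hpow : ∀ a b : ℕ, a ≡ b [MOD m] → ζ ^ a = ζ ^ b := by
    intro a b hab
    rw [pow_eq_pow_mod a hζ.pow_eq_one, pow_eq_pow_mod b hζ.pow_eq_one]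
    exact congrArg _ hab
  have h1 : σ₀ (ζ ^ p) = ζ ^ p := by
    rw [map_pow, hσ₀, ← pow_mul]
    apply hpow
    rw [hm]
    have := Nat.ModEq.mul_left' p hk2
    rw [mul_one] at this
    rw [mul_comm k p]
    exact this
  have h2 : σ₀ (ζ ^ m') = (ζ ^ m') ^ 2 := by
    rw [map_pow, hσ₀, ← pow_mul, ← pow_mul]
    apply hpow
    rw [hm, mul_comm p m', mul_comm k m']
    exact Nat.ModEq.mul_left' m' hk1
  -- the twist
  obtain ⟨a, -, ha⟩ := hη.eq_pow_of_pow_eq_one (ξ := σ₀ X / X) (by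
    rw [div_pow, h σ₀ h1, div_self (pow_ne_zero _ hX)])
  have ha' : σ₀ X = (ζ ^ m') ^ a * X := by rw [ha, div_mul_cancel₀ _ hX]
  set a' := (p - 1) * a with ha'def
  have haa : a' + a = p * a := by
    have := hp.out.pos
    rw [ha'def]
    obtain ⟨q, rfl⟩ : ∃ q, p = q + 1 := ⟨p - 1, by omega⟩
    simp only [Nat.add_sub_cancel]
    ring
  have hηp : ∀ i : ℕ, (ζ ^ m') ^ (p * i) = 1 := fun i => by rw [pow_mul, hη.pow_eq_one, one_pow]
  set y := (ζ ^ m') ^ a' * X with hy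
  have hy0 : y ≠ 0 := mul_ne_zero (pow_ne_zero _ (pow_ne_zero _ hζ0)) hX
  have hy1 : σ₀ y = y := by
    rw [hy, map_mul, map_pow, h2, ha', ← mul_assoc, ← pow_mul, ← pow_add]
    congr 1
    have : 2 * a' + a = a' + p * a := by rw [← haa]; ring
    rw [this, pow_add, hηp, mul_one]
  refine ⟨m' * a', ?_⟩
  rw [pow_mul, ← hy]
  apply mem_of_fixed
  intro σ hσ
  obtain ⟨i, -, hi⟩ := hη.eq_pow_of_pow_eq_one (ξ := σ y / y) (by
    have e1 : y ^ p = X ^ p := by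
      rw [hy, mul_pow, ← pow_mul, mul_comm a' p, hηp, one_mul]
    rw [div_pow, ← map_pow, e1, map_pow, h σ hσ, div_self (pow_ne_zero _ hX)])
  have hi' : σ y = (ζ ^ m') ^ i * y := by rw [hi, div_mul_cancel₀ _ hy0]
  obtain ⟨s, hs⟩ := aut_pow hζ σ
  have hcomm : σ (σ₀ y) = σ₀ (σ y) := by
    have : σ * σ₀ = σ₀ * σ := by
      apply aut_ext hζ
      rw [AlgEquiv.mul_apply, AlgEquiv.mul_apply, hσ₀, hs, map_pow, map_pow, hσ₀, hs, ← pow_mul,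
        ← pow_mul, mul_comm]
    have := DFunLike.congr_fun this y
    rwa [AlgEquiv.mul_apply, AlgEquiv.mul_apply] at this
  rw [hy1, hi', map_mul, map_pow, h2, hy1] at hcomm
  have h3 : (ζ ^ m') ^ i = ((ζ ^ m') ^ 2) ^ i := mul_right_cancel₀ hy0 hcomm
  have hηi : (ζ ^ m') ^ i ≠ 0 := pow_ne_zero _ (pow_ne_zero _ hζ0)
  have h4 : (ζ ^ m') ^ i = 1 := by
    have h5 : ((ζ ^ m') ^ 2) ^ i = (ζ ^ m') ^ i * (ζ ^ m') ^ i := by ring
    exact mul_right_cancel₀ hηi (by rw [← h5, ← h3, one_mul])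
  rw [hi', h4, one_mul]

lemma twist_B [IsGalois ℚ K] (hζ : IsPrimitiveRoot ζ m) (p : ℕ) [hp : Fact p.Prime]
    (m' : ℕ) (hm : m = p * m') (hpm : p ∣ m') (X : K) (hX : X ≠ 0)
    (h : ∀ σ : K ≃ₐ[ℚ] K, σ (ζ ^ p) = ζ ^ p → (σ X) ^ p = X ^ p) :
    ∃ j : ℕ, ζ ^ j * X ∈ ℚ⟮ζ ^ p⟯ := by
  have hζ0 : ζ ≠ 0 := hζ.ne_zero (NeZero.ne m)
  have hη : IsPrimitiveRoot (ζ ^ m') p := hζ.pow (NeZero.pos m) (by rw [hm, mul_comm])
  have hkm : (1 + m').Coprime m := by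
    rw [hm]
    refine Nat.Coprime.mul_right ?_ ?_
    · obtain ⟨q, rfl⟩ := hpm
      rw [Nat.coprime_add_mul_left_left]
      exact Nat.coprime_one_left p
    · rw [Nat.coprime_add_self_left]
      exact Nat.coprime_one_left m'
  obtain ⟨σ₀, hσ₀⟩ := exists_aut hζ hkm
  have hηp : ∀ i : ℕ, (ζ ^ m') ^ (p * i) = 1 := fun i => by rw [pow_mul, hη.pow_eq_one, one_pow]
  have h2 : σ₀ (ζ ^ m') = ζ ^ m' := by
    rw [map_pow, hσ₀, ← pow_mul, add_mul, one_mul, pow_add]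
    obtain ⟨q, hq⟩ := hpm
    have : ζ ^ (m' * m') = 1 := by
      conv_lhs => rw [pow_mul]; arg 2; rw [hq]
      exact hηp q
    rw [this, mul_one]
  have hσ₀' : σ₀ ζ = ζ ^ m' * ζ := by rw [hσ₀, pow_add, pow_one, mul_comm]
  have h1 : σ₀ (ζ ^ p) = ζ ^ p := by
    rw [map_pow, hσ₀', mul_pow, ← pow_mul, mul_comm m' p, ← hm, hζ.pow_eq_one, one_mul]
  obtain ⟨a, -, ha⟩ := hη.eq_pow_of_pow_eq_one (ξ := σ₀ X / X) (by
    rw [div_pow, h σ₀ h1, div_self (pow_ne_zero _ hX)])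
  have ha' : σ₀ X = (ζ ^ m') ^ a * X := by rw [ha, div_mul_cancel₀ _ hX]
  set a' := (p - 1) * a with ha'def
  have haa : a' + a = p * a := by
    have := hp.out.pos
    rw [ha'def]
    obtain ⟨q, rfl⟩ : ∃ q, p = q + 1 := ⟨p - 1, by omega⟩
    simp only [Nat.add_sub_cancel]
    ring
  set y := ζ ^ a' * X with hy
  have hy1 : σ₀ y = y := by
    have e1 : σ₀ y = (ζ ^ m') ^ (a' + a) * y := by
      rw [hy, map_mul, map_pow, hσ₀', ha', mul_pow, pow_add]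
      ring
    rw [e1, haa, hηp, one_mul]
  refine ⟨a', ?_⟩
  rw [← hy]
  apply mem_of_fixed
  intro σ hσ
  obtain ⟨i, -, hi⟩ := hη.eq_pow_of_pow_eq_one (ξ := σ ζ / ζ) (by
    rw [div_pow, ← map_pow, hσ, div_self (pow_ne_zero _ hζ0)])
  have hi' : σ ζ = (ζ ^ m') ^ i * ζ := by rw [hi, div_mul_cancel₀ _ hζ0]
  have hpw : ∀ i : ℕ, (σ₀ ^ i) ζ = (ζ ^ m') ^ i * ζ ∧ (σ₀ ^ i) y = y := by
    intro i
    induction i with
    | zero => simp
    | succ i ih =>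
      constructor
      · rw [pow_succ', AlgEquiv.mul_apply, ih.1, map_mul, map_pow, h2, hσ₀']
        ring
      · rw [pow_succ', AlgEquiv.mul_apply, ih.2, hy1]
  have : σ = σ₀ ^ i := aut_ext hζ (by rw [hi', (hpw i).1])
  rw [this, (hpw i).2]

end cyc

end Pool.Agent.helper79.SL
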