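import Pool.Agent.helper79.SL.Abs

set_option autoImplicit false

/-!
# Kummer independence over a field containing all roots of unity
-/

namespace Pool.Agent.helper79.SL

open NumberField Height Finset Module IntermediateField

/-- elements which are multiplied by scalars by the Galois group, in different classes modulo
scalars, are linearly independent -/
theorem kummer_aux {k Ω : Type*} [Field k] [Field Ω] [Algebra k Ω] [IsGalois k Ω] {ι : Type*}
    (b : ι → Ω) (hb0 : ∀ i, b i ≠ 0)
    (hq : ∀ i (σ : Ω ≃ₐ[k] Ω), ∃ c : k, σ (b i) = algebraMap k Ω c * b i)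
    (hne : ∀ i j, i ≠ j → b i / b j ∉ (⊥ : IntermediateField k Ω)) : LinearIndependent k b := by
  classical
  let χ : ι → ((Ω ≃ₐ[k] Ω) →* Ω) := fun i =>
    { toFun := fun σ => σ (b i) / b i
      map_one' := by simp [hb0 i]
      map_mul' := by
        intro σ τ
        obtain ⟨c, hc⟩ := hq i σ
        obtain ⟨d, hd⟩ := hq i τ
        rw [AlgEquiv.mul_apply, hd, map_mul, AlgEquiv.commutes, hc]
        field_simp [hb0 i] }
  have hχ : Function.Injective χ := by
    intro i j hij
    by_contra hne'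
    apply hne i j hne'
    rw [InfiniteGalois.mem_bot_iff_fixed]
    intro σ
    rw [map_div₀]
    have h4 : σ (b i) / b i = σ (b j) / b j := DFunLike.congr_fun hij σ
    have h5 := hb0 i
    have h6 := hb0 j
    have h7 : σ (b j) ≠ 0 := by simpa using h6
    field_simp at h4 ⊢
    linear_combination h4
  have hli : LinearIndependent Ω (fun i => (χ i : (Ω ≃ₐ[k] Ω) → Ω)) :=
    (linearIndependent_monoidHom (Ω ≃ₐ[k] Ω) Ω).comp χ hχ
  rw [linearIndependent_iff'] at hli ⊢
  intro s c hc i hi
  have h1 : ∑ j ∈ s, (algebraMap k Ω (c j) * b j) • (χ j : (Ω ≃ₐ[k] Ω) → Ω) = 0 := by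
    funext σ
    rw [Finset.sum_apply, Pi.zero_apply]
    have h2 : ∑ j ∈ s, algebraMap k Ω (c j) * b j = 0 := by
      rw [← hc]
      exact Finset.sum_congr rfl fun j _ => (Algebra.smul_def _ _).symm
    have h3 := congrArg σ h2
    rw [map_sum, map_zero] at h3
    rw [← h3]
    refine Finset.sum_congr rfl fun j _ => ?_
    rw [map_mul, AlgEquiv.commutes]
    show algebraMap k Ω (c j) * b j * (σ (b j) / b j) = _
    have := hb0 j
    field_simp
  have h4 := hli s _ h1 i hi
  have h5 : algebraMap k Ω (c i) = 0 := by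
    rcases mul_eq_zero.1 h4 with h | h
    · exact h
    · exact absurd h (hb0 i)
  exact (algebraMap k Ω).injective (by rw [h5, map_zero])

variable {F : IntermediateField ℚ ℂ}

/-- Radicals in different classes are linearly independent over a field which contains the roots
of unity. -/
theorem kummer_indep (hμ : ∀ (k : ℕ) (ζ : ℂ), 0 < k → ζ ^ k = 1 → ζ ∈ F) {ι : Type*}
    (a : ι → ℂ) (h0 : ∀ i, a i ≠ 0) (ha : ∀ i, ∃ k : ℕ, 0 < k ∧ a i ^ k ∈ F)
    (hne : ∀ i j, i ≠ j → a i / a j ∉ F) : LinearIndependent F a := by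
  classical
  have halg : ∀ i, IsAlgebraic F (a i) := by
    intro i
    obtain ⟨k, hk, h⟩ := ha i
    have h1 : IsAlgebraic F (a i ^ k) := by
      have := isAlgebraic_algebraMap (R := F) (A := ℂ) ⟨a i ^ k, h⟩
      exact this
    exact h1.of_pow hk
  let Ω := algebraicClosure F ℂ
  haveI : IsAlgClosure F Ω := inferInstance
  haveI : Normal F Ω := IsAlgClosure.normal F _
  haveI : IsGalois F Ω := {}
  let b : ι → Ω := fun i => ⟨a i, (mem_algebraicClosure_iff).2 (halg i)⟩
  have hb0 : ∀ i, b i ≠ 0 := fun i h => h0 i (congrArg (fun z : Ω => (z : ℂ)) h)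
  have hq : ∀ i (σ : Ω ≃ₐ[F] Ω), ∃ c : F, σ (b i) = algebraMap F Ω c * b i := by
    intro i σ
    obtain ⟨k, hk, h⟩ := ha i
    have h1 : (σ (b i) / b i) ^ k = 1 := by
      have h2 : b i ^ k = algebraMap F Ω ⟨a i ^ k, h⟩ := Subtype.ext rfl
      rw [div_pow, ← map_pow, h2, AlgEquiv.commutes, ← h2, div_self (pow_ne_zero _ (hb0 i))]
    have h3 : (((σ (b i) / b i : Ω) : ℂ)) ^ k = 1 := by
      have := congrArg (fun z : Ω => (z : ℂ)) h1
      simpa using this
    refine ⟨⟨_, hμ k _ hk h3⟩, ?_⟩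
    have h4 : algebraMap F Ω ⟨_, hμ k _ hk h3⟩ = σ (b i) / b i := Subtype.ext rfl
    rw [h4, div_mul_cancel₀ _ (hb0 i)]
  have hne' : ∀ i j, i ≠ j → b i / b j ∉ (⊥ : IntermediateField F Ω) := by
    intro i j hij h
    rw [IntermediateField.mem_bot] at h
    obtain ⟨y, hy⟩ := h
    have h2 : (y : ℂ) = a i / a j := congrArg (fun z : Ω => (z : ℂ)) hy
    exact hne i j hij (h2 ▸ y.2)
  have hli := kummer_aux b hb0 hq hne'
  exact hli.map' Ω.val.toLinearMap (LinearMap.ker_eq_bot.2 Ω.val.injective)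

end Pool.Agent.helper79.SL
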