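import Mathlib

set_option autoImplicit false

/-!
# Minkowski's bound for finite groups acting on finitely generated abelian groups
-/

namespace Pool.Agent.helper79.SL

open Module

section mink

variable {s : ℕ}

/-- `(1 + Z) ^ n = 1 + n Z + Z² W` -/
lemma one_add_pow' {R : Type*} [Ring R] (Z : R) (n : ℕ) :
    ∃ W : R, (1 + Z) ^ n = 1 + n • Z + Z * Z * W := by
  induction n with
  | zero => exact ⟨0, by simp⟩
  | succ n ih =>
    obtain ⟨W, hW⟩ := ih
    refine ⟨n • 1 + W * (1 + Z), ?_⟩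
    rw [pow_succ, hW]
    have e1 : (n + 1) • Z = n • Z + Z := by rw [add_smul, one_smul]
    have e2 : Z * Z * (n • (1 : R)) = n • Z * Z := by
      rw [mul_smul_comm, mul_one, smul_mul_assoc]
    rw [e1, mul_add (Z * Z), e2]
    noncomm_ring

/-- one step of Minkowski's argument -/
lemma mink_step {l : ℕ} (hl : l.Prime) {X Y : Matrix (Fin s) (Fin s) ℤ} {k : ℕ} (hk : 1 ≤ k)
    (hX : X ^ l = 1) (hY : X = 1 + (3 ^ k : ℕ) • Y) : ∃ Y', Y = (3 : ℕ) • Y' := by
  have h3k : (3 ^ k : ℤ) ≠ 0 := by positivity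
  have hcancel : ∀ (j : ℕ) (Z : Matrix (Fin s) (Fin s) ℤ), (3 ^ j : ℤ) • Z = 0 → Z = 0 := by
    intro j Z h
    exact (smul_eq_zero.1 h).resolve_left (by positivity)
  by_cases h3 : l = 3
  · subst h3
    rw [hY] at hX
    refine ⟨-((3 ^ (k - 1) : ℤ) • (Y * Y) + (3 ^ (2 * k - 2) : ℤ) • (Y * Y * Y)), ?_⟩
    have h1 : (3 ^ (k + 1) : ℤ) • (Y + (3 : ℤ) • ((3 ^ (k - 1) : ℤ) • (Y * Y) +
        (3 ^ (2 * k - 2) : ℤ) • (Y * Y * Y))) = 0 := by
      have e0 : ((3 ^ k : ℕ) • Y) = (3 ^ k : ℤ) • Y := by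
        rw [← natCast_zsmul]; push_cast; rfl
      rw [e0] at hX
      have e1 : (1 + (3 ^ k : ℤ) • Y) ^ 3 = 1 + (3 ^ (k + 1) : ℤ) • Y +
          (3 * (3 ^ k * 3 ^ k) : ℤ) • (Y * Y) + (3 ^ k * (3 ^ k * 3 ^ k) : ℤ) • (Y * Y * Y) := by
        rw [pow_succ (3 : ℤ) k]
        simp only [pow_succ (1 + (3 ^ k : ℤ) • Y), pow_zero, one_mul, mul_add, add_mul, mul_one,
          smul_mul_assoc, mul_smul_comm, smul_smul, mul_assoc, smul_add]
        module
      rw [e1] at hX
      have e2 : (3 ^ (k + 1) : ℤ) * 3 * 3 ^ (k - 1) = 3 * (3 ^ k * 3 ^ k) := by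
        obtain ⟨q, rfl⟩ : ∃ q, k = q + 1 := ⟨k - 1, by omega⟩
        simp only [Nat.add_sub_cancel]
        ring
      have e3 : (3 ^ (k + 1) : ℤ) * 3 * 3 ^ (2 * k - 2) = 3 ^ k * (3 ^ k * 3 ^ k) := by
        obtain ⟨q, rfl⟩ : ∃ q, k = q + 1 := ⟨k - 1, by omega⟩
        have : 2 * (q + 1) - 2 = 2 * q := by omega
        rw [this]
        ring
      rw [smul_add, smul_add, smul_smul, smul_smul, smul_add, smul_smul, smul_smul, ← mul_assoc,
        ← mul_assoc, e2, e3]
      have h2 : (1 : Matrix (Fin s) (Fin s) ℤ) + ((3 ^ (k + 1) : ℤ) • Y +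
          ((3 * (3 ^ k * 3 ^ k) : ℤ) • (Y * Y) + (3 ^ k * (3 ^ k * 3 ^ k) : ℤ) • (Y * Y * Y))) =
          1 + 0 := by
        rw [add_zero, ← add_assoc, ← add_assoc]
        exact hX
      exact add_left_cancel h2
    have h2 := hcancel (k + 1) _ (by exact_mod_cast h1)
    rw [smul_neg, ← natCast_zsmul]
    push_cast
    exact eq_neg_of_add_eq_zero_left h2
  · obtain ⟨W, hW⟩ := one_add_pow' ((3 ^ k : ℕ) • Y) l
    rw [← hY, hX] at hW
    have hcop : IsCoprime (l : ℤ) 3 := by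
      have : Nat.Coprime l 3 := (Nat.coprime_primes hl Nat.prime_three).2 h3
      exact_mod_cast Nat.isCoprime_iff_coprime.2 this
    obtain ⟨a, b, hab⟩ := hcop
    have h1 : (3 ^ k : ℤ) • ((l : ℤ) • Y + (3 ^ k : ℤ) • (Y * Y * W)) = 0 := by
      have e0 : ((3 ^ k : ℕ) • Y) = (3 ^ k : ℤ) • Y := by
        rw [← natCast_zsmul]; push_cast; rfl
      rw [e0, ← natCast_zsmul] at hW
      have e1 : (1 : Matrix (Fin s) (Fin s) ℤ) + ((l : ℤ) • (3 ^ k : ℤ) • Y +
          (3 ^ k : ℤ) • Y * (3 ^ k : ℤ) • Y * W) = 1 + 0 := by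
        rw [add_zero, ← add_assoc]
        exact hW.symm
      have e2 := add_left_cancel e1
      rw [smul_mul_assoc, smul_mul_assoc, mul_smul_comm, smul_mul_assoc, smul_comm] at e2
      rw [smul_add]
      exact e2
    have h2 := hcancel k _ h1
    refine ⟨b • Y - a • ((3 ^ (k - 1) : ℤ) • (Y * Y * W)), ?_⟩
    have h4 : (3 ^ k : ℤ) = 3 * 3 ^ (k - 1) := by
      obtain ⟨q, rfl⟩ : ∃ q, k = q + 1 := ⟨k - 1, by omega⟩
      simp only [Nat.add_sub_cancel]
      ring
    have h5 : (l : ℤ) • Y = -((3 ^ k : ℤ) • (Y * Y * W)) := eq_neg_of_add_eq_zero_left h2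
    have h6 : Y = (a * l + b * 3 : ℤ) • Y := by rw [hab, one_smul]
    rw [← natCast_zsmul]
    conv_lhs => rw [h6, add_smul, mul_smul, h5, h4]
    push_cast
    module

/-- **Minkowski's lemma** -/
lemma minkowski {X Y : Matrix (Fin s) (Fin s) ℤ} {n : ℕ} (hn : 0 < n) (hX : X ^ n = 1)
    (hY : X = 1 + (3 : ℕ) • Y) : X = 1 := by
  -- prime order first
  have prime_case : ∀ (l : ℕ), l.Prime → ∀ X Y : Matrix (Fin s) (Fin s) ℤ, X ^ l = 1 →
      X = 1 + (3 : ℕ) • Y → X = 1 := by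
    intro l hl X Y hX hY
    have hall : ∀ k : ℕ, ∃ Z : Matrix (Fin s) (Fin s) ℤ, X = 1 + (3 ^ (k + 1) : ℕ) • Z := by
      intro k
      induction k with
      | zero => exact ⟨Y, by simpa using hY⟩
      | succ k ih =>
        obtain ⟨Z, hZ⟩ := ih
        obtain ⟨Z', hZ'⟩ := mink_step hl (by omega) hX hZ
        refine ⟨Z', ?_⟩
        conv_lhs => rw [hZ, hZ', smul_smul, ← pow_succ]
    ext i j
    by_contra hne
    have hne' : X i j - (1 : Matrix (Fin s) (Fin s) ℤ) i j ≠ 0 := sub_ne_zero.2 hne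
    obtain ⟨Z, hZ⟩ := hall (X i j - (1 : Matrix (Fin s) (Fin s) ℤ) i j).natAbs
    set t := (X i j - (1 : Matrix (Fin s) (Fin s) ℤ) i j).natAbs with ht
    have h1 : X i j - (1 : Matrix (Fin s) (Fin s) ℤ) i j = (3 ^ (t + 1) : ℤ) * Z i j := by
      conv_lhs => rw [hZ]
      rw [Matrix.add_apply, Matrix.smul_apply, add_sub_cancel_left, nsmul_eq_mul]
      push_cast
      rfl
    have h2 : 3 ^ (t + 1) ∣ t := by
      have h3 : (3 ^ (t + 1) : ℤ) ∣ X i j - (1 : Matrix (Fin s) (Fin s) ℤ) i j := ⟨_, h1⟩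
      have h4 := Int.natAbs_dvd_natAbs.2 h3
      rwa [Int.natAbs_pow, ← ht] at h4
    have h3 : 0 < t := Int.natAbs_pos.2 hne'
    have h4 := Nat.le_of_dvd h3 h2
    have h5 : t + 1 < 3 ^ (t + 1) := Nat.lt_pow_self (by norm_num)
    omega
  -- reduction
  induction n using Nat.strong_induction_on generalizing X Y with
  | _ n ih =>
  by_cases h1 : n = 1
  · subst h1
    simpa using hX
  · obtain ⟨l, hl, q, rfl⟩ := Nat.exists_prime_and_dvd h1
    have hq : 0 < q := Nat.pos_of_ne_zero (by rintro rfl; simp at hn)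
    obtain ⟨W, hW⟩ : ∃ W, X ^ q = 1 + (3 : ℕ) • W := by
      obtain ⟨W, hW⟩ := one_add_pow' ((3 : ℕ) • Y) q
      refine ⟨q • Y + Y * ((3 : ℕ) • Y) * W, ?_⟩
      rw [hY, hW, smul_add, add_assoc, smul_comm, smul_mul_assoc, smul_mul_assoc]
    have h2 : X ^ q = 1 := by
      refine prime_case l hl (X ^ q) W ?_ hW
      rw [← pow_mul, mul_comm]
      exact hX
    have h3 : q < l * q := by
      have := hl.two_le
      nlinarith
    exact ih q h3 hq h2 hY

/-- **Minkowski's theorem** (crude form) -/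
theorem exists_index {G : Type*} [Group G] [Finite G] (ρ : G →* Matrix (Fin s) (Fin s) ℤ) :
    ∃ H : Subgroup G, H.index ≤ 3 ^ (s * s) ∧ ∀ σ ∈ H, ρ σ = 1 := by
  let φ : Matrix (Fin s) (Fin s) ℤ →* Matrix (Fin s) (Fin s) (ZMod 3) :=
    ((Int.castRingHom (ZMod 3)).mapMatrix : Matrix (Fin s) (Fin s) ℤ →+*
      Matrix (Fin s) (Fin s) (ZMod 3))
  let ψ : G →* (Matrix (Fin s) (Fin s) (ZMod 3))ˣ := (φ.comp ρ).toHomUnits
  refine ⟨ψ.ker, ?_, ?_⟩
  · rw [Subgroup.index_ker]
    have h1 : Nat.card ψ.range ≤ Nat.card (Matrix (Fin s) (Fin s) (ZMod 3))ˣ :=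
      Nat.card_le_card_of_injective _ Subtype.val_injective
    have h2 : Nat.card (Matrix (Fin s) (Fin s) (ZMod 3))ˣ ≤
        Nat.card (Matrix (Fin s) (Fin s) (ZMod 3)) :=
      Nat.card_le_card_of_injective _ Units.val_injective
    have h3 : Nat.card (Matrix (Fin s) (Fin s) (ZMod 3)) = 3 ^ (s * s) := by
      rw [Nat.card_eq_fintype_card]
      change Fintype.card (Fin s → Fin s → ZMod 3) = _
      rw [Fintype.card_fun, Fintype.card_fun, ZMod.card, Fintype.card_fin, pow_mul]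
    exact h1.trans (h2.trans h3.le)
  · intro σ hσ
    have h1 : φ (ρ σ) = 1 := by
      have := congrArg Units.val (MonoidHom.mem_ker.1 hσ)
      exact this
    have h2 : ∀ i j, ∃ y : ℤ, ρ σ i j = (1 : Matrix (Fin s) (Fin s) ℤ) i j + 3 * y := by
      intro i j
      have h3 := congrFun (congrFun h1 i) j
      have h4 : ((ρ σ i j : ℤ) : ZMod 3) = (((1 : Matrix (Fin s) (Fin s) ℤ) i j : ℤ) : ZMod 3) := by
        have e1 : φ (ρ σ) i j = ((ρ σ i j : ℤ) : ZMod 3) := rfl
        rw [← e1, h3, Matrix.one_apply, Matrix.one_apply]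
        split_ifs <;> simp
      obtain ⟨y, hy⟩ := (ZMod.intCast_eq_intCast_iff_dvd_sub _ _ 3).1 h4
      refine ⟨-y, ?_⟩
      push_cast at hy
      linarith
    choose Y hY using h2
    have h3 : ρ σ = 1 + (3 : ℕ) • (Matrix.of Y) := by
      ext i j
      rw [hY i j, Matrix.add_apply, Matrix.smul_apply, Matrix.of_apply, nsmul_eq_mul]
      rfl
    refine minkowski (n := Nat.card G) Nat.card_pos ?_ h3
    rw [← map_pow, pow_card_eq_one', map_one]

end mink

section lattice

variable {G A : Type*} [Group G] [Finite G] [AddCommGroup A] [Module.Finite ℤ A]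

/-- finite groups acting on a finitely generated abelian group -/
theorem exists_index_torsion (ρ : G →* (A →ₗ[ℤ] A)) :
    ∃ H : Subgroup G, H.index ≤ 3 ^ (finrank ℤ (A ⧸ Submodule.torsion ℤ A) *
      finrank ℤ (A ⧸ Submodule.torsion ℤ A)) ∧
      ∀ σ ∈ H, ∀ a : A, ∃ k : ℕ, 0 < k ∧ k • (ρ σ a - a) = 0 := by
  haveI : Module.Free ℤ (A ⧸ Submodule.torsion ℤ A) := inferInstance
  let b := Module.finBasis ℤ (A ⧸ Submodule.torsion ℤ A)
  have hmap : ∀ f : A →ₗ[ℤ] A, Submodule.torsion ℤ A ≤ (Submodule.torsion ℤ A).comap f := by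
    intro f x hx
    rw [Submodule.mem_comap, Submodule.mem_torsion_iff] at *
    obtain ⟨a, ha⟩ := hx
    refine ⟨a, ?_⟩
    have : a • f x = f (a • x) := (f.map_smul (a : ℤ) x).symm
    rw [this, ha, map_zero]
  let E : G →* ((A ⧸ Submodule.torsion ℤ A) →ₗ[ℤ] (A ⧸ Submodule.torsion ℤ A)) :=
    { toFun := fun σ => Submodule.mapQ _ _ (ρ σ) (hmap _)
      map_one' := by
        apply LinearMap.ext
        intro x
        obtain ⟨a, rfl⟩ := Submodule.Quotient.mk_surjective _ x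
        rw [Submodule.mapQ_apply, map_one]
        rfl
      map_mul' := fun σ τ => by
        apply LinearMap.ext
        intro x
        obtain ⟨a, rfl⟩ := Submodule.Quotient.mk_surjective _ x
        rw [Submodule.mapQ_apply, map_mul]
        rfl }
  obtain ⟨H, h1, h2⟩ := exists_index
    (((LinearMap.toMatrixAlgEquiv b).toRingEquiv.toMonoidHom).comp E)
  refine ⟨H, h1, fun σ hσ a => ?_⟩
  have h3 : E σ = 1 := by
    have := h2 σ hσ
    apply (LinearMap.toMatrixAlgEquiv b).injective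
    rw [map_one]
    exact this
  have h4 : (Submodule.Quotient.mk (ρ σ a) : A ⧸ Submodule.torsion ℤ A) =
      Submodule.Quotient.mk a := by
    have := LinearMap.congr_fun h3 (Submodule.Quotient.mk a)
    exact this
  rw [Submodule.Quotient.eq, Submodule.mem_torsion_iff] at h4
  obtain ⟨⟨c, hc⟩, hc2⟩ := h4
  have hc0 : c ≠ 0 := nonZeroDivisors.ne_zero hc
  refine ⟨c.natAbs, Int.natAbs_pos.2 hc0, ?_⟩
  have h5 : c • (ρ σ a - a) = 0 := hc2
  rcases Int.natAbs_eq c with h | h
  · rw [h] at h5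
    rwa [natCast_zsmul] at h5
  · rw [h, neg_smul, neg_eq_zero] at h5
    rwa [natCast_zsmul] at h5

/-- the rank of a group generated by a set in which any `r + 1` elements are dependent -/
theorem finrank_le_of_dependent {S : Set A} (hS : Submodule.span ℤ S = ⊤) (r : ℕ)
    (hdep : ∀ u : Fin (r + 1) → A, (∀ j, u j ∈ S) → ∃ w : Fin (r + 1) → ℤ, w ≠ 0 ∧
      ∑ j, w j • u j = 0) :
    finrank ℤ (A ⧸ Submodule.torsion ℤ A) ≤ r := by
  classical
  haveI : Module.Free ℤ (A ⧸ Submodule.torsion ℤ A) := inferInstance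
  set Q := A ⧸ Submodule.torsion ℤ A with hQ
  let b : Basis (Fin (finrank ℤ Q)) ℤ Q := Module.finBasis ℤ Q
  set s := finrank ℤ Q with hs
  -- the coordinates
  let f : A →ₗ[ℤ] (Fin s → ℚ) :=
    { toFun := fun a i => ((b.repr (Submodule.Quotient.mk a) i : ℤ) : ℚ)
      map_add' := fun x y => by
        funext i
        simp
      map_smul' := fun c x => by
        funext i
        simp }
  have hspan : Submodule.span ℚ (f '' S) = ⊤ := by
    rw [eq_top_iff]
    have h1 : ∀ a : A, f a ∈ Submodule.span ℚ (f '' S) := by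
      intro a
      have h2 : a ∈ Submodule.span ℤ S := by rw [hS]; trivial
      induction h2 using Submodule.span_induction with
      | mem x hx => exact Submodule.subset_span ⟨x, hx, rfl⟩
      | zero => rw [map_zero]; exact Submodule.zero_mem _
      | add x y _ _ hx hy => rw [map_add]; exact Submodule.add_mem _ hx hy
      | smul c x _ hx =>
        rw [map_smul, ← Int.cast_smul_eq_zsmul ℚ]
        exact Submodule.smul_mem _ _ hx
    intro x _
    have h3 : x = ∑ i, x i • (Pi.single i 1 : Fin s → ℚ) := by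
      funext j
      rw [Finset.sum_apply, Finset.sum_eq_single j]
      · simp
      · intro i _ hij
        simp [hij.symm]
      · simp
    rw [h3]
    refine Submodule.sum_mem _ fun i _ => Submodule.smul_mem _ _ ?_
    obtain ⟨a, ha⟩ := Submodule.Quotient.mk_surjective _ (b i)
    have h4 : f a = Pi.single i 1 := by
      funext j
      change ((b.repr (Submodule.Quotient.mk a) j : ℤ) : ℚ) = _
      rw [ha, b.repr_self, Finsupp.single_apply, Pi.single_apply]
      by_cases hij : i = j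
      · rw [if_pos hij, if_pos hij.symm]; simp
      · rw [if_neg hij, if_neg (Ne.symm hij)]; simp
    rw [← h4]
    exact h1 a
  obtain ⟨B, hBS, hBspan, hBli⟩ := exists_linearIndependent ℚ (f '' S)
  by_contra hcon
  push Not at hcon
  have hBtop : ⊤ ≤ Submodule.span ℚ (Set.range ((↑) : B → Fin s → ℚ)) := by
    rw [Subtype.range_coe, hBspan, hspan]
  let bB := Basis.mk hBli hBtop
  haveI : Fintype B := FiniteDimensional.fintypeBasisIndex bB
  have hcard : Fintype.card B = s := by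
    rw [← Module.finrank_eq_card_basis bB, Module.finrank_fin_fun]
  obtain ⟨e⟩ : Nonempty (Fin (r + 1) ↪ B) := by
    rw [Function.Embedding.nonempty_iff_card_le, hcard, Fintype.card_fin]
    exact hcon
  have hpre : ∀ j, ∃ a ∈ S, f a = (e j : Fin s → ℚ) := fun j => hBS (e j).2
  choose u hu hfu using hpre
  obtain ⟨w, hw, hsum⟩ := hdep u hu
  apply hw
  have hli : LinearIndependent ℚ (fun j => ((e j : B) : Fin s → ℚ)) := hBli.comp _ e.injective
  have h1 : ∑ j, (w j : ℚ) • ((e j : B) : Fin s → ℚ) = 0 := by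
    have h2 := congrArg f hsum
    rw [map_zero, map_sum] at h2
    rw [← h2]
    refine Finset.sum_congr rfl fun j _ => ?_
    rw [map_smul, hfu, Int.cast_smul_eq_zsmul]
  funext j
  have := Fintype.linearIndependent_iff.1 hli _ h1 j
  exact_mod_cast this

end lattice

end Pool.Agent.helper79.SL
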