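import Pool.Agent.helper79.SL.Abs

set_option autoImplicit false

/-!
# A positive lower bound of the height for algebraic numbers of bounded degree
-/

namespace Pool.Agent.helper79.SL

open NumberField Height Finset Module IntermediateField Polynomial

section nc

variable {K : Type*} [Field K] [NumberField K]

lemma norm_le_mulHeight₁ (x : K) (φ : K →+* ℂ) : ‖φ x‖ ≤ mulHeight₁ x := by
  classical
  rw [NumberField.mulHeight₁_eq]
  have h1 : (1 : ℝ) ≤ ∏ᶠ v : FinitePlace K, max (v x) 1 :=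
    finprod_induction (fun y : ℝ => 1 ≤ y) le_rfl
      (fun a b ha hb => one_le_mul_of_one_le_of_one_le ha hb) (fun v => le_max_right _ _)
  have h2 : ∀ s : Finset (InfinitePlace K), (1 : ℝ) ≤ ∏ v ∈ s, max (v x) 1 ^ v.mult := by
    intro s
    exact Finset.prod_induction _ (fun y : ℝ => 1 ≤ y)
      (fun a b ha hb => one_le_mul_of_one_le_of_one_le ha hb) le_rfl
      (fun v _ => one_le_pow₀ (le_max_right _ _))
  set v := InfinitePlace.mk φ with hv
  have h3 : ‖φ x‖ ≤ ∏ v : InfinitePlace K, max (v x) 1 ^ v.mult := by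
    rw [← Finset.mul_prod_erase Finset.univ _ (Finset.mem_univ v)]
    calc ‖φ x‖ = v x := rfl
      _ ≤ max (v x) 1 := le_max_left _ _
      _ ≤ max (v x) 1 ^ v.mult := le_self_pow₀ (le_max_right _ _) (InfinitePlace.mult_pos).ne'
      _ = max (v x) 1 ^ v.mult * 1 := (mul_one _).symm
      _ ≤ _ := mul_le_mul_of_nonneg_left (h2 _) (by positivity)
  calc ‖φ x‖ ≤ (∏ v : InfinitePlace K, max (v x) 1 ^ v.mult) * 1 := by rwa [mul_one]
    _ ≤ _ := mul_le_mul_of_nonneg_left h1 (zero_le_one.trans (h2 _))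

/-- numbers of bounded degree and height -/
lemma exists_poly_bdd (m : ℕ) (x : K) (hd : finrank ℚ K ≤ m)
    (hx : logHeight₁ x ≤ m) (C : ℤ)
    (hC : (max (Real.exp m * Real.exp m) 1) ^ m * 2 ^ m ≤ C) :
    ∃ n : ℕ, n ≠ 0 ∧ n ≤ ⌈Real.exp m⌉₊ ∧ ∃ f : ℤ[X], f ≠ 0 ∧ f.natDegree ≤ m ∧
      (∀ i, f.coeff i ∈ Set.Icc (-C) C) ∧ aeval ((n : K) * x) f = 0 := by
  have hH : mulHeight₁ x ≤ Real.exp m := by
    have h1 : 0 < mulHeight₁ x := zero_lt_one.trans_le (one_le_mulHeight₁ x)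
    rw [logHeight₁_eq_log_mulHeight₁] at hx
    exact (Real.log_le_iff_le_exp h1).1 hx
  obtain ⟨n, hn0, hn, hint⟩ := exists_nat_le_mulHeight₁ x
  have hnm : (n : ℝ) ≤ Real.exp m := hn.trans hH
  refine ⟨n, hn0, Nat.cast_le.1 (hnm.trans (Nat.le_ceil _)), minpoly ℤ ((n : K) * x),
    minpoly.ne_zero hint, ?_, ?_, minpoly.aeval ℤ _⟩
  · rw [← (minpoly.monic hint).natDegree_map (algebraMap ℤ ℚ),
      ← minpoly.isIntegrallyClosed_eq_field_fractions' ℚ hint]
    exact (minpoly.natDegree_le _).trans hd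
  · intro i
    have hb : ∀ φ : K →+* ℂ, ‖φ ((n : K) * x)‖ ≤ Real.exp m * Real.exp m := by
      intro φ
      rw [map_mul, map_natCast, norm_mul, Complex.norm_natCast]
      exact mul_le_mul hnm ((norm_le_mulHeight₁ x φ).trans hH) (norm_nonneg _) (by positivity)
    have h2 := Embeddings.coeff_bdd_of_norm_le hb i
    have h_map := minpoly.isIntegrallyClosed_eq_field_fractions' ℚ hint
    rw [Set.mem_Icc, ← abs_le, ← @Int.cast_le ℝ]
    refine le_trans ?_ hC
    have h3 : ((|(minpoly ℤ ((n : K) * x)).coeff i| : ℤ) : ℝ) =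
        ‖(minpoly ℚ ((n : K) * x)).coeff i‖ := by
      rw [h_map, coeff_map, eq_intCast, Int.norm_cast_rat, Int.norm_eq_abs, Int.cast_abs]
    rw [h3]
    refine h2.trans ?_
    have h4 : (finrank ℚ K).choose (finrank ℚ K / 2) ≤ 2 ^ m :=
      (Nat.choose_le_two_pow _ _).trans (Nat.pow_le_pow_right (by norm_num) hd)
    have h5 : (((finrank ℚ K).choose (finrank ℚ K / 2) : ℕ) : ℝ) ≤ 2 ^ m := by exact_mod_cast h4
    exact mul_le_mul (pow_le_pow_right₀ (le_max_right _ _) hd) h5 (by positivity) (by positivity)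

end nc

/-- the set of algebraic numbers of degree at most `m` and height at most `1` is finite -/
lemma finite_bdd (m : ℕ) : {x : ℂ | ∃ K : IntermediateField ℚ ℂ, FiniteDimensional ℚ K ∧
    finrank ℚ K ≤ m ∧ x ∈ K ∧ ht x ≤ 1}.Finite := by
  classical
  obtain ⟨C, hC⟩ := exists_nat_ge ((max (Real.exp m * Real.exp m) 1) ^ m * 2 ^ m)
  have hfin := Polynomial.bUnion_roots_finite (algebraMap ℤ ℂ) m (Set.finite_Icc (-C : ℤ) C)
  set T := (⋃ (f : ℤ[X]) (_ : f.natDegree ≤ m ∧ ∀ i, f.coeff i ∈ Set.Icc (-C : ℤ) C),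
        ((f.map (algebraMap ℤ ℂ)).roots.toFinset : Set ℂ)) with hT
  have hfin2 : (⋃ n ∈ Finset.range (⌈Real.exp m⌉₊ + 1), (fun y : ℂ => y / n) '' T).Finite :=
    Set.Finite.biUnion (Finset.finite_toSet _) fun n _ => hfin.image _
  refine hfin2.subset ?_
  rintro x ⟨K, hK, hd, hx, hht⟩
  haveI : NumberField K := {}
  have h1 := ht_eq' K ⟨x, hx⟩
  have hdpos : (0 : ℝ) < finrank ℚ K := by exact_mod_cast finrank_pos
  have h2 : logHeight₁ (⟨x, hx⟩ : K) ≤ m := by
    have h3 : logHeight₁ (⟨x, hx⟩ : K) = ht x * finrank ℚ K := by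
      rw [h1, div_mul_cancel₀ _ hdpos.ne']
    rw [h3]
    calc ht x * finrank ℚ K ≤ 1 * m :=
          mul_le_mul hht (by exact_mod_cast hd) hdpos.le zero_le_one
      _ = m := one_mul _
  obtain ⟨n, hn0, hn, f, hf0, hfd, hfc, hf⟩ := exists_poly_bdd m (⟨x, hx⟩ : K) hd h2 C
    (by exact_mod_cast hC)
  rw [Set.mem_iUnion₂]
  refine ⟨n, Finset.mem_range.2 (Nat.lt_succ_of_le hn), (n : ℂ) * x, ?_, ?_⟩
  · rw [hT, Set.mem_iUnion₂]
    refine ⟨f, ⟨hfd, hfc⟩, ?_⟩
    rw [Finset.mem_coe, Multiset.mem_toFinset, mem_roots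
      ((Polynomial.map_ne_zero_iff (algebraMap ℤ ℂ).injective_int).2 hf0), IsRoot.def,
      eval_map_algebraMap]
    have h3 := congrArg (algebraMap K ℂ) hf
    rw [map_zero, ← Polynomial.aeval_algebraMap_apply] at h3
    simpa using h3
  · have : (n : ℂ) ≠ 0 := by exact_mod_cast hn0
    simp only
    rw [mul_div_cancel_left₀ _ this]

/-- an algebraic number of height zero is zero or a root of unity -/
lemma ht_pos {x : ℂ} (hx : IsAlgebraic ℚ x) (h0 : x ≠ 0) (ht0 : ∀ k : ℕ, 0 < k → x ^ k ≠ 1) :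
    0 < ht x := by
  rcases (ht_nonneg x).lt_or_eq with h | h
  · exact h
  exfalso
  obtain ⟨K, hK, hxK⟩ := exists_field ![x] (by intro i; fin_cases i; assumption)
  have hxK' : x ∈ K := hxK 0
  have hfin := finite_bdd (finrank ℚ K)
  obtain ⟨a, -, b, -, hab, he⟩ :=
    Set.Infinite.exists_ne_map_eq_of_mapsTo (f := (x ^ · : ℕ → ℂ)) Set.infinite_univ
      (fun a _ => Set.mem_ofPred.mpr ⟨K, hK, le_rfl, pow_mem hxK' a, by
        rw [ht_pow hx, ← h, mul_zero]
        exact zero_le_one⟩) hfin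
  have key : ∀ a b : ℕ, a < b → x ^ a = x ^ b → False := by
    intro a b hab he
    apply ht0 (b - a) (by omega)
    have h1 : x ^ (b - a) * x ^ a = 1 * x ^ a := by
      rw [← pow_add, Nat.sub_add_cancel hab.le, one_mul]
      exact he.symm
    exact mul_right_cancel₀ (pow_ne_zero _ h0) h1
  rcases lt_or_gt_of_ne hab with h1 | h1
  · exact key a b h1 he
  · exact key b a h1 he.symm

/-- **uniform lower bound of the height in bounded degree** -/
theorem northcott (m : ℕ) : ∃ c : ℝ, 0 < c ∧ ∀ K : IntermediateField ℚ ℂ,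
    FiniteDimensional ℚ K → finrank ℚ K ≤ m → ∀ x ∈ K, x ≠ 0 → (∀ k : ℕ, 0 < k → x ^ k ≠ 1) →
    c ≤ ht x := by
  set S := {x : ℂ | (∃ K : IntermediateField ℚ ℂ, FiniteDimensional ℚ K ∧
    finrank ℚ K ≤ m ∧ x ∈ K ∧ ht x ≤ 1) ∧ x ≠ 0 ∧ ∀ k : ℕ, 0 < k → x ^ k ≠ 1} with hS
  have hSf : S.Finite := (finite_bdd m).subset fun x hx => hx.1
  have halg : ∀ (K : IntermediateField ℚ ℂ) (x : ℂ), FiniteDimensional ℚ K → x ∈ K →
      IsAlgebraic ℚ x := by
    intro K x hK hx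
    have : IsAlgebraic ℚ (⟨x, hx⟩ : K) := Algebra.IsAlgebraic.isAlgebraic _
    exact this.algebraMap (A := ℂ)
  rcases S.eq_empty_or_nonempty with h | h
  · refine ⟨1, one_pos, fun K hK hd x hx h0 ht0 => ?_⟩
    by_contra hcon
    have : x ∈ S := ⟨⟨K, hK, hd, hx, (not_le.1 hcon).le⟩, h0, ht0⟩
    rw [h] at this
    exact this
  · obtain ⟨y, hy, hmin⟩ := Set.exists_min_image S ht hSf h
    have hypos : 0 < ht y := by
      obtain ⟨⟨K, hK, -, hyK, -⟩, h0, ht0⟩ := hy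
      exact ht_pos (halg K y hK hyK) h0 ht0
    refine ⟨min 1 (ht y), lt_min one_pos hypos, fun K hK hd x hx h0 ht0 => ?_⟩
    rcases le_total (ht x) 1 with h1 | h1
    · exact (min_le_right _ _).trans (hmin x ⟨⟨K, hK, hd, hx, h1⟩, h0, ht0⟩)
    · exact (min_le_left _ _).trans h1

end Pool.Agent.helper79.SL
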