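import Pool.Agent.helper79.SL.Mk
import Pool.Agent.helper79.SL.Bd

set_option autoImplicit false

/-!
# Tuples whose conjugates generate a group of bounded rank
-/

namespace Pool.Agent.helper79.SL

open NumberField Height Finset Module IntermediateField Polynomial

section rk

variable {N : Type*} [Field N] [NumberField N]

/-- the action of an automorphism on the (additively written) group of units -/
noncomputable def actM (σ : N ≃ₐ[ℚ] N) : Additive Nˣ →ₗ[ℤ] Additive Nˣ :=
  (MonoidHom.toAdditive (Units.map (σ : N →* N))).toIntLinearMap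

lemma actM_ofMul (σ : N ≃ₐ[ℚ] N) (u : Nˣ) :
    actM σ (Additive.ofMul u) = Additive.ofMul (Units.map (σ : N →* N) u) := rfl

/-- the units which are conjugates of the `a i` -/
def CC {n : ℕ} (a : Fin n → N) : Set (Additive Nˣ) :=
  {u | ∃ i, aeval ((Additive.toMul u : Nˣ) : N) (minpoly ℚ (a i)) = 0}

lemma CC_finite {n : ℕ} (a : Fin n → N) : (CC a).Finite := by
  classical
  have h1 : (⋃ i, ((minpoly ℚ (a i)).rootSet N)).Finite :=
    Set.finite_iUnion fun i => rootSet_finite _ _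
  refine Set.Finite.of_finite_image (f := fun u : Additive Nˣ => ((Additive.toMul u : Nˣ) : N))
    (h1.subset ?_) ?_
  · rintro _ ⟨u, ⟨i, hi⟩, rfl⟩
    exact Set.mem_iUnion.2 ⟨i, mem_rootSet.2 ⟨minpoly.ne_zero (Algebra.IsIntegral.isIntegral _), hi⟩⟩
  · intro u _ v _ h
    exact Units.ext h

lemma actM_mem {n : ℕ} (a : Fin n → N) (σ : N ≃ₐ[ℚ] N) {u : Additive Nˣ} (hu : u ∈ CC a) :
    actM σ u ∈ CC a := by
  obtain ⟨i, hi⟩ := hu
  refine ⟨i, ?_⟩
  have h1 : ((Additive.toMul (actM σ u) : Nˣ) : N) = σ ((Additive.toMul u : Nˣ) : N) := rfl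
  rw [h1]
  have h2 := Polynomial.aeval_algHom_apply (σ : N →ₐ[ℚ] N) ((Additive.toMul u : Nˣ) : N)
    (minpoly ℚ (a i))
  rw [hi, map_zero] at h2
  exact h2

lemma actM_span {n : ℕ} (a : Fin n → N) (σ : N ≃ₐ[ℚ] N) :
    ∀ x ∈ Submodule.span ℤ (CC a), actM σ x ∈ Submodule.span ℤ (CC a) := by
  intro x hx
  induction hx using Submodule.span_induction with
  | mem x hx => exact Submodule.subset_span (actM_mem a σ hx)
  | zero => rw [map_zero]; exact Submodule.zero_mem _
  | add x y _ _ hx hy => rw [map_add]; exact Submodule.add_mem _ hx hy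
  | smul c x _ hx => rw [map_smul]; exact Submodule.smul_mem _ _ hx

/-- the action on the group generated by the conjugates -/
noncomputable def actA {n : ℕ} (a : Fin n → N) :
    (N ≃ₐ[ℚ] N) →* (Submodule.span ℤ (CC a) →ₗ[ℤ] Submodule.span ℤ (CC a)) where
  toFun σ := (actM σ).restrict (actM_span a σ)
  map_one' := by
    apply LinearMap.ext
    intro x
    apply Subtype.ext
    rfl
  map_mul' σ τ := by
    apply LinearMap.ext
    intro x
    apply Subtype.ext
    rfl

/-- reduction to a field of bounded degree -/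
theorem rk_aux [IsGalois ℚ N] {n : ℕ} (r : ℕ) (a : Fin n → N) (ha : ∀ i, a i ≠ 0)
    (hdep : ∀ β : Fin (r + 1) → N, (∀ j, β j ≠ 0) →
      (∀ j, ∃ i, aeval (β j) (minpoly ℚ (a i)) = 0) →
      ∃ w : Fin (r + 1) → ℤ, w ≠ 0 ∧ ∏ j, β j ^ w j = 1) :
    ∃ K : IntermediateField ℚ N, finrank ℚ K ≤ 3 ^ (r * r) ∧
      ∀ i, ∃ k : ℕ, 0 < k ∧ a i ^ k ∈ K := by
  classical
  haveI : Module.Finite ℤ (Submodule.span ℤ (CC a)) :=
    Module.Finite.span_of_finite ℤ (CC_finite a)
  have hrank : finrank ℤ (Submodule.span ℤ (CC a) ⧸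
      Submodule.torsion ℤ (Submodule.span ℤ (CC a))) ≤ r := by
    refine finrank_le_of_dependent (S := ((↑) : Submodule.span ℤ (CC a) → Additive Nˣ) ⁻¹' (CC a))
      Submodule.span_span_coe_preimage r ?_
    intro u hu
    obtain ⟨w, hw, hprod⟩ := hdep (fun j => ((Additive.toMul (u j : Additive Nˣ) : Nˣ) : N))
      (fun j => Units.ne_zero _) (fun j => hu j)
    refine ⟨w, hw, ?_⟩
    apply Subtype.ext
    have h1 : ((∑ j, w j • u j : Submodule.span ℤ (CC a)) : Additive Nˣ) =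
        ∑ j, w j • (u j : Additive Nˣ) := by
      push_cast
      rfl
    rw [h1]
    have h2 : ∏ j, (Additive.toMul (u j : Additive Nˣ)) ^ w j = 1 := by
      apply Units.ext
      rw [Units.val_one, ← hprod, ← Units.coeHom_apply, map_prod]
      refine Finset.prod_congr rfl fun j _ => ?_
      rw [map_zpow, Units.coeHom_apply]
    have h3 := congrArg Additive.ofMul h2
    rw [ofMul_prod, ofMul_one] at h3
    exact h3
  obtain ⟨H, hH1, hH2⟩ := exists_index_torsion (actA a)
  have hidx : H.index ≤ 3 ^ (r * r) :=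
    hH1.trans (Nat.pow_le_pow_right (by norm_num) (Nat.mul_le_mul hrank hrank))
  refine ⟨fixedField H, ?_, ?_⟩
  · rw [IntermediateField.finrank_eq_fixingSubgroup_index, IntermediateField.fixingSubgroup_fixedField]
    exact hidx
  · intro i
    have hmem : Additive.ofMul (Units.mk0 (a i) (ha i)) ∈ Submodule.span ℤ (CC a) :=
      Submodule.subset_span ⟨i, minpoly.aeval ℚ (a i)⟩
    have hk : ∀ σ : H, ∃ k : ℕ, 0 < k ∧ (σ.1 (a i)) ^ k = (a i) ^ k := by
      intro σ
      obtain ⟨k, hk, h1⟩ := hH2 σ.1 σ.2 ⟨_, hmem⟩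
      refine ⟨k, hk, ?_⟩
      have h2 : k • (Additive.ofMul (Units.map (σ.1 : N →* N) (Units.mk0 (a i) (ha i))) -
          Additive.ofMul (Units.mk0 (a i) (ha i))) = 0 := congrArg Subtype.val h1
      have h3 : (Units.map (σ.1 : N →* N) (Units.mk0 (a i) (ha i)) / Units.mk0 (a i) (ha i)) ^ k =
          1 := h2
      have h4 := congrArg Units.val h3
      rw [Units.val_pow_eq_pow_val, Units.val_div_eq_div_val, Units.val_one, div_pow] at h4
      have h5 : (a i) ^ k ≠ 0 := pow_ne_zero _ (ha i)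
      exact (div_eq_one_iff_eq h5).1 h4
    choose k hk0 hk using hk
    refine ⟨∏ σ, k σ, Finset.prod_pos fun σ _ => hk0 σ, ?_⟩
    rw [IntermediateField.mem_fixedField_iff]
    intro σ hσ
    have h1 := hk ⟨σ, hσ⟩
    rw [map_pow, ← Finset.mul_prod_erase Finset.univ k (Finset.mem_univ ⟨σ, hσ⟩), pow_mul, pow_mul,
      h1]

end rk

/-- there is a finite Galois extension of `ℚ` inside `ℂ` which contains given algebraic numbers -/
lemma exists_galois {n : ℕ} (α : Fin n → ℂ) (halg : ∀ i, IsAlgebraic ℚ (α i)) :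
    ∃ (N : Type) (_ : Field N) (_ : NumberField N) (_ : IsGalois ℚ N) (ι : N →+* ℂ)
      (a : Fin n → N), ∀ i, ι (a i) = α i := by
  let L : IntermediateField ℚ ℂ := adjoin ℚ (Set.range α)
  haveI : FiniteDimensional ℚ L :=
    finiteDimensional_adjoin (by rintro _ ⟨i, rfl⟩; exact (halg i).isIntegral)
  haveI : FiniteDimensional ℚ (normalClosure ℚ L ℂ) := normalClosure.is_finiteDimensional ℚ L ℂ
  haveI : IsNormalClosure ℚ L (normalClosure ℚ L ℂ) :=
    Algebra.IsAlgebraic.isNormalClosure_normalClosure fun x => IsAlgClosed.splits _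
  haveI : Normal ℚ (normalClosure ℚ L ℂ) := IsNormalClosure.normal (K := L)
  haveI : NumberField (normalClosure ℚ L ℂ) := {}
  haveI : IsGalois ℚ (normalClosure ℚ L ℂ) := {}
  refine ⟨normalClosure ℚ L ℂ, inferInstance, inferInstance, inferInstance,
    algebraMap _ ℂ, fun i => ⟨α i, ?_⟩, fun i => rfl⟩
  exact IntermediateField.le_normalClosure L (subset_adjoin ℚ _ ⟨i, rfl⟩)

/-- **Simultaneous Lehmer problem for tuples whose conjugates generate a group of bounded rank** -/
theorem bounded_rank (n r : ℕ) (hn : 0 < n) : ∃ c : ℝ, 0 < c ∧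
    ∀ α : Fin n → ℂ, (∀ i, IsAlgebraic ℚ (α i)) → (∀ i, α i ≠ 0) →
    (∀ w : Fin n → ℤ, ∏ i, α i ^ w i = 1 → w = 0) →
    (∀ β : Fin (r + 1) → ℂ, (∀ j, ∃ i, aeval (β j) (minpoly ℚ (α i)) = 0) →
      ∃ w : Fin (r + 1) → ℤ, w ≠ 0 ∧ ∏ j, β j ^ w j = 1) →
    c / finrank ℚ (adjoin ℚ (Set.range α)) ≤ ∏ i, ht (α i) := by
  obtain ⟨c, hc, h⟩ := bounded_degree_rel n (3 ^ (r * r)) hn
  refine ⟨c, hc, fun α halg h0 hind hdep => ?_⟩
  obtain ⟨N, _, _, _, ι, a, ha⟩ := exists_galois α halg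
  have ha0 : ∀ i, a i ≠ 0 := by
    intro i hi
    apply h0 i
    rw [← ha i, hi, map_zero]
  have hmin : ∀ i, minpoly ℚ (a i) = minpoly ℚ (α i) := by
    intro i
    rw [← ha i]
    exact (minpoly.algHom_eq (ι.toRatAlgHom) ι.injective (a i)).symm
  obtain ⟨K, hK1, hK2⟩ := rk_aux r a ha0 (by
    intro β hβ0 hβ
    obtain ⟨w, hw, hprod⟩ := hdep (fun j => ι (β j)) (by
      intro j
      obtain ⟨i, hi⟩ := hβ j
      refine ⟨i, ?_⟩
      have h1 := Polynomial.aeval_algHom_apply (ι.toRatAlgHom) (β j) (minpoly ℚ (a i))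
      rw [hi, map_zero, hmin i] at h1
      exact h1)
    refine ⟨w, hw, ?_⟩
    apply ι.injective
    rw [map_prod, map_one, ← hprod]
    exact Finset.prod_congr rfl fun j _ => map_zpow₀ ι _ _)
  let K' : IntermediateField ℚ ℂ := K.map ι.toRatAlgHom
  let e : K ≃ₐ[ℚ] K' := K.equivMap ι.toRatAlgHom
  haveI : FiniteDimensional ℚ K' := Module.Finite.equiv e.toLinearEquiv
  have hfr : finrank ℚ K' ≤ 3 ^ (r * r) := by
    rw [← e.toLinearEquiv.finrank_eq]
    exact hK1
  have hpos : (0 : ℝ) < finrank (Kinf K') (adjoin (Kinf K') (Set.range α)) := by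
    haveI : FiniteDimensional (Kinf K') (adjoin (Kinf K') (Set.range α)) :=
      finiteDimensional_adjoin (by rintro _ ⟨i, rfl⟩; exact (halg i).isIntegral.tower_top)
    exact_mod_cast finrank_pos
  refine le_trans ?_ (h K' inferInstance hfr α h0 (fun i => ?_) hind)
  · apply div_le_div_of_nonneg_left hc.le hpos
    exact_mod_cast finrank_adjoin_le (Kinf K') (Set.finite_range α)
      (by rintro _ ⟨i, rfl⟩; exact halg i)
  · obtain ⟨k, hk, hmem⟩ := hK2 i
    refine ⟨k, hk, ?_⟩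
    rw [← ha i, ← map_pow]
    exact ⟨a i ^ k, hmem, rfl⟩

end Pool.Agent.helper79.SL
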