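import Pool.Agent.helper79.SL.Nc
import Pool.Agent.helper79.SL.Main

set_option autoImplicit false

/-!
# Radicals over a number field `K` which lie in `K(μ_∞)`
-/

namespace Pool.Agent.helper79.SL

open NumberField Height Finset Module IntermediateField Polynomial

/-- the uniform exponent -/
def wexp (m : ℕ) : ℕ := ((m + 1).factorial) ^ m

lemma wexp_pos (m : ℕ) : 0 < wexp m := pow_pos (Nat.factorial_pos _) _

lemma dvd_wexp {m d : ℕ} (hd : 0 < d) (h : d.totient ≤ m) : d ∣ wexp m := by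
  rw [Nat.dvd_iff_prime_pow_dvd_dvd]
  intro p k hp hpk
  rcases Nat.eq_zero_or_pos k with rfl | hk
  · simp
  have h1 : (p ^ k).totient ≤ m := by
    refine (Nat.le_of_dvd (Nat.totient_pos.2 hd) (Nat.totient_dvd_of_dvd hpk)).trans h
  rw [Nat.totient_prime_pow hp hk] at h1
  have hp1 : 1 ≤ p - 1 := by have := hp.two_le; omega
  have hpp : 1 ≤ p ^ (k - 1) := Nat.one_le_pow _ _ hp.pos
  have h2 : p - 1 ≤ m := by
    calc p - 1 = 1 * (p - 1) := (one_mul _).symm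
      _ ≤ p ^ (k - 1) * (p - 1) := Nat.mul_le_mul_right _ hpp
      _ ≤ m := h1
  have h3 : p ^ (k - 1) ≤ m := by
    calc p ^ (k - 1) = p ^ (k - 1) * 1 := (mul_one _).symm
      _ ≤ p ^ (k - 1) * (p - 1) := Nat.mul_le_mul_left _ hp1
      _ ≤ m := h1
  have h4 : 2 ^ (k - 1) ≤ m := (Nat.pow_le_pow_left hp.two_le _).trans h3
  have h5 : m < 2 ^ m := Nat.lt_two_pow_self
  have h6 : k - 1 < m := (Nat.pow_lt_pow_iff_right (by norm_num)).1 (h4.trans_lt h5)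
  have h7 : p ∣ (m + 1).factorial := hp.dvd_factorial.2 (by omega)
  exact (pow_dvd_pow p (by omega : k ≤ m)).trans (pow_dvd_pow_of_dvd h7 m)

section sch

variable {K : IntermediateField ℚ ℂ} [FiniteDimensional ℚ K]

omit [FiniteDimensional ℚ K] in
lemma cycK {n : ℕ} [NeZero n] {ζ : ℂ} (hζ : IsPrimitiveRoot ζ n) :
    IsCyclotomicExtension {n} K K⟮ζ⟯ := by
  change IsCyclotomicExtension {n} K (K⟮ζ⟯).toSubalgebra
  have h1 : IsAlgebraic K ζ := by
    have h2 : IsIntegral K ζ := (hζ.isIntegral (NeZero.pos n)).tower_top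
    exact h2.isAlgebraic
  rw [IntermediateField.adjoin_simple_toSubalgebra_of_isAlgebraic h1]
  exact hζ.adjoin_isCyclotomicExtension K

/-- **Schinzel's lemma** on abelian binomials, with a uniform exponent -/
theorem schinzel {m : ℕ} (hm : finrank ℚ K ≤ m) {N k : ℕ} (hN : 0 < N) (hk : k ∣ N) {ζ : ℂ}
    (hζ : IsPrimitiveRoot ζ N) {g : ℂ} (hg0 : g ≠ 0) (hg : g ∈ K⟮ζ⟯) (hgk : g ^ k ∈ K) :
    ∃ ξ : ℂ, ξ ^ N = 1 ∧ ξ * g ^ wexp m ∈ K := by
  haveI : NeZero N := ⟨hN.ne'⟩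
  haveI : IsCyclotomicExtension {N} K K⟮ζ⟯ := cycK hζ
  haveI : FiniteDimensional K K⟮ζ⟯ := IsCyclotomicExtension.finiteDimensional {N} K K⟮ζ⟯
  haveI : IsGalois K K⟮ζ⟯ := IsCyclotomicExtension.isGalois {N} K K⟮ζ⟯
  set Z : K⟮ζ⟯ := ⟨ζ, mem_adjoin_simple_self K ζ⟩ with hZ
  have hZp : IsPrimitiveRoot Z N := IsPrimitiveRoot.coe_submonoidClass_iff.1 hζ
  have hZ0 : Z ≠ 0 := hZp.ne_zero hN.ne'
  set G : K⟮ζ⟯ := ⟨g, hg⟩ with hG
  have hG0 : G ≠ 0 := fun h => hg0 (congrArg Subtype.val h)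
  -- the exponents
  have hc : ∀ σ : K⟮ζ⟯ ≃ₐ[K] K⟮ζ⟯, ∃ c : ℤ, σ Z = Z ^ c := by
    intro σ
    exact ⟨((hZp.autToPow K σ : ZMod N).val : ℤ), by
      rw [zpow_natCast]; exact (hZp.autToPow_spec K σ).symm⟩
  have hGk : ∀ σ : K⟮ζ⟯ ≃ₐ[K] K⟮ζ⟯, (σ G) ^ k = G ^ k := by
    intro σ
    have h1 : G ^ k = algebraMap K K⟮ζ⟯ ⟨g ^ k, hgk⟩ := Subtype.ext rfl
    rw [← map_pow, h1, AlgEquiv.commutes]
  have ha : ∀ σ : K⟮ζ⟯ ≃ₐ[K] K⟮ζ⟯, ∃ a : ℤ, σ G = Z ^ a * G := by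
    intro σ
    obtain ⟨i, -, hi⟩ := hZp.eq_pow_of_pow_eq_one (ξ := σ G / G) (by
      obtain ⟨q, hq⟩ := hk
      rw [hq, pow_mul, div_pow, hGk σ, div_self (pow_ne_zero _ hG0), one_pow])
    exact ⟨i, by rw [zpow_natCast, hi, div_mul_cancel₀ _ hG0]⟩
  choose c hc using hc
  choose a ha using ha
  have hcomm : ∀ σ τ : K⟮ζ⟯ ≃ₐ[K] K⟮ζ⟯, Z ^ ((c σ - 1) * a τ) = Z ^ ((c τ - 1) * a σ) := by
    intro σ τ
    have hst : σ * τ = τ * σ := by
      apply AlgEquiv.coe_toAlgHom_injective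
      apply (hZp.powerBasis K).algHom_ext
      rw [hZp.powerBasis_gen K]
      change σ (τ Z) = τ (σ Z)
      rw [hc τ, hc σ, map_zpow₀, map_zpow₀, hc τ, hc σ, ← zpow_mul, ← zpow_mul, mul_comm]
    have h1 : σ (τ G) = τ (σ G) := DFunLike.congr_fun hst G
    rw [ha τ, ha σ, map_mul, map_mul, map_zpow₀, map_zpow₀, ha τ, ha σ, hc τ, hc σ,
      ← mul_assoc, ← mul_assoc, ← zpow_mul, ← zpow_mul, ← zpow_add₀ hZ0, ← zpow_add₀ hZ0] at h1
    have h2 := mul_right_cancel₀ hG0 h1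
    have h3 : Z ^ (c σ * a τ + a σ) * Z ^ (-(a τ + a σ)) =
        Z ^ (c τ * a σ + a τ) * Z ^ (-(a τ + a σ)) := by rw [h2]
    rw [← zpow_add₀ hZ0, ← zpow_add₀ hZ0] at h3
    have e1 : c σ * a τ + a σ + -(a τ + a σ) = (c σ - 1) * a τ := by ring
    have e2 : c τ * a σ + a τ + -(a τ + a σ) = (c τ - 1) * a σ := by ring
    rwa [e1, e2] at h3
  -- the ideal
  set J : Ideal ℤ := Ideal.span (insert (N : ℤ) (Set.range fun σ => c σ - 1)) with hJ
  have hP : ∀ w ∈ J, ∃ e : ℤ, ∀ τ, Z ^ (w * a τ) = Z ^ ((c τ - 1) * e) := by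
    intro w hw
    rw [hJ, Ideal.span] at hw
    induction hw using Submodule.span_induction with
    | mem w hw =>
      rcases Set.mem_insert_iff.1 hw with rfl | ⟨σ, rfl⟩
      · refine ⟨0, fun τ => ?_⟩
        rw [zpow_mul, zpow_natCast, hZp.pow_eq_one, one_zpow, mul_zero, zpow_zero]
      · exact ⟨a σ, fun τ => hcomm σ τ⟩
    | zero => exact ⟨0, fun τ => by simp⟩
    | add x y _ _ hx hy =>
      obtain ⟨e, he⟩ := hx
      obtain ⟨f, hf⟩ := hy
      refine ⟨e + f, fun τ => ?_⟩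
      rw [add_mul, mul_add, zpow_add₀ hZ0, zpow_add₀ hZ0, he, hf]
    | smul r x _ hx =>
      obtain ⟨e, he⟩ := hx
      refine ⟨r * e, fun τ => ?_⟩
      have e1 : r • x * a τ = (x * a τ) * r := by rw [smul_eq_mul]; ring
      have e2 : (c τ - 1) * (r * e) = ((c τ - 1) * e) * r := by ring
      rw [e1, e2, zpow_mul Z (x * a τ) r, zpow_mul Z ((c τ - 1) * e) r, he]
  -- the generator of the ideal
  have hwJ : (wexp m : ℤ) ∈ J := by
    obtain ⟨d0, hd0⟩ : ∃ d0 : ℤ, J = Ideal.span {d0} := ⟨_, (Submodule.IsPrincipal.span_singleton_generator J).symm⟩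
    have hNJ : (N : ℤ) ∈ J := Ideal.subset_span (Set.mem_insert _ _)
    have hcJ : ∀ σ, c σ - 1 ∈ J := fun σ => Ideal.subset_span (Set.mem_insert_of_mem _ ⟨σ, rfl⟩)
    have hdN : d0 ∣ (N : ℤ) := by rw [hd0] at hNJ; exact Ideal.mem_span_singleton.1 hNJ
    have hdc : ∀ σ, d0 ∣ c σ - 1 := by
      intro σ
      have := hcJ σ
      rw [hd0] at this
      exact Ideal.mem_span_singleton.1 this
    set d := d0.natAbs with hd
    have hdN' : d ∣ N := by
      have := Int.natAbs_dvd_natAbs.2 hdN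
      rwa [Int.natAbs_natCast] at this
    have hdpos : 0 < d := Nat.pos_of_dvd_of_pos hdN' hN
    obtain ⟨q, hq⟩ := hdN'
    have hprim : IsPrimitiveRoot (Z ^ q) d := hZp.pow hN (by rw [hq, mul_comm])
    have hfix : Z ^ q ∈ (⊥ : IntermediateField K K⟮ζ⟯) := by
      rw [IsGalois.mem_bot_iff_fixed]
      intro σ
      rw [map_pow, hc σ, ← zpow_natCast, ← zpow_mul, ← zpow_natCast]
      obtain ⟨r, hr⟩ := hdc σ
      have e1 : c σ * (q : ℤ) = q + d0 * r * q := by rw [← hr]; ring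
      have e2 : Z ^ (d0 * r * q) = 1 := by
        have h1 : (N : ℤ) ∣ d0 * r * q := by
          have h2 : (N : ℤ) = d * q := by exact_mod_cast hq
          rw [h2]
          have h3 : (d : ℤ) ∣ d0 := by rw [hd]; exact Int.natAbs_dvd.2 dvd_rfl
          exact mul_dvd_mul (h3.mul_right r) dvd_rfl
        obtain ⟨t, ht⟩ := h1
        rw [ht, zpow_mul, zpow_natCast, hZp.pow_eq_one, one_zpow]
      rw [e1, zpow_add₀ hZ0, e2, mul_one]
    rw [IntermediateField.mem_bot] at hfix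
    obtain ⟨u, hu⟩ := hfix
    have hup : IsPrimitiveRoot u d := by
      apply IsPrimitiveRoot.of_map_of_injective (f := algebraMap K K⟮ζ⟯) _
        (algebraMap K K⟮ζ⟯).injective
      rw [hu]
      exact hprim
    have htot : d.totient ≤ finrank ℚ K := by
      haveI : NeZero d := ⟨hdpos.ne'⟩
      have h1 := hup.minpoly_eq_cyclotomic_of_irreducible
        (Polynomial.cyclotomic.irreducible_rat hdpos)
      have h2 := minpoly.natDegree_le (A := ℚ) u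
      rw [← h1, natDegree_cyclotomic] at h2
      exact h2
    have h1 : d ∣ wexp m := dvd_wexp hdpos (htot.trans hm)
    rw [hd0, Ideal.mem_span_singleton]
    have h2 : (d : ℤ) ∣ (wexp m : ℤ) := by exact_mod_cast h1
    exact (Int.dvd_natAbs.2 dvd_rfl).trans h2
  obtain ⟨e, he⟩ := hP _ hwJ
  -- the fixed element
  have hfix : Z ^ (-e) * G ^ wexp m ∈ (⊥ : IntermediateField K K⟮ζ⟯) := by
    rw [IsGalois.mem_bot_iff_fixed]
    intro τ
    rw [map_mul, map_zpow₀, map_pow, hc τ, ha τ, mul_pow, ← mul_assoc, ← zpow_natCast (Z ^ a τ),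
      ← zpow_mul, ← zpow_mul, mul_comm (a τ), he τ, ← zpow_add₀ hZ0]
    congr 2
    ring
  rw [IntermediateField.mem_bot] at hfix
  obtain ⟨u, hu⟩ := hfix
  refine ⟨ζ ^ (-e), ?_, ?_⟩
  · rw [← zpow_natCast, ← zpow_mul, mul_comm, zpow_mul, zpow_natCast, hζ.pow_eq_one, one_zpow]
  · have h1 := congrArg (algebraMap K⟮ζ⟯ ℂ) hu
    rw [← IsScalarTower.algebraMap_apply] at h1
    have h2 : algebraMap K⟮ζ⟯ ℂ (Z ^ (-e) * G ^ wexp m) = ζ ^ (-e) * g ^ wexp m := by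
      rw [map_mul, map_zpow₀, map_pow]
      rfl
    rw [← h2, ← h1]
    exact u.2

end sch

end Pool.Agent.helper79.SL
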